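import Pool.Agent.helper90.FN.Spec

/-! Module fn:HG -/

set_option autoImplicit false

namespace Pool.Agent.helper90.FN

open Finset
open Pool.Agent.helper72.UT
open Pool.Agent.helper20.HP (ind)

lemma HG_sum_ind_le {V : Type} [Fintype V] [DecidableEq V] (P : V → Prop)
    (h : ∀ x y, P x → P y → x = y) : ∑ x, ind (P x) ≤ 1 := by
  classical
  by_cases h0 : ∃ x0, P x0
  · obtain ⟨x0, hx0⟩ := h0
    rw [Finset.sum_eq_single x0]
    · unfold ind; split_ifs; norm_num
    · intro y _ hy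
      unfold ind
      rw [if_neg]
      intro hP
      exact hy (h y x0 hP hx0)
    · intro h1; exact absurd (Finset.mem_univ _) h1
  · have h1 : ∀ x ∈ (Finset.univ : Finset V), ind (P x) = 0 := by
      intro x _
      unfold ind
      rw [if_neg]
      intro hP
      exact h0 ⟨x, hP⟩
    rw [Finset.sum_eq_zero h1]
    norm_num

lemma HG_top_unique {V : Type} [Fintype V] [DecidableEq V] {G : SimpleGraph V} {C : Finset V}
    {f : V → V} (hf : IsFor G C f) (v : V) :
    ∀ x ∈ pth C f v, ∀ y ∈ pth C f v, x ∉ C → f x ∈ C → y ∉ C → f y ∈ C → x = y := by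
  refine hf.ind (P := fun v => ∀ x ∈ pth C f v, ∀ y ∈ pth C f v, x ∉ C → f x ∈ C → y ∉ C →
    f y ∈ C → x = y) ?_ ?_ v
  · intro v hv x hx y hy hxC
    rw [pth_mem hv, List.mem_singleton] at hx
    rw [hx] at hxC
    exact absurd hv hxC
  · intro v hv ih x hx y hy hxC hfx hyC hfy
    rw [pth_not_mem hv (hf.hit v), List.mem_cons] at hx hy
    rcases hx with hx | hx
    · rcases hy with hy | hy
      · rw [hx, hy]
      · exfalso
        rw [hx] at hfx
        rw [pth_mem hfx, List.mem_singleton] at hy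
        rw [hy] at hyC
        exact hyC hfx
    · rcases hy with hy | hy
      · exfalso
        rw [hy] at hfy
        rw [pth_mem hfy, List.mem_singleton] at hx
        rw [hx] at hxC
        exact hxC hfy
      · exact ih x hx y hy hxC hfx hyC hfy

lemma HG_pth_sub {V : Type} [Fintype V] [DecidableEq V] {G : SimpleGraph V} {C D : Finset V}
    {f : V → V} (hf : IsFor G C f) (hD : Cl C D f) (y : V) (hy : y ∈ D) :
    ∀ x ∈ pth C f y, x ∈ D := by
  revert hy
  refine hf.ind (P := fun y => y ∈ D → ∀ x ∈ pth C f y, x ∈ D) ?_ ?_ y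
  · intro y hy hyD x hx
    rw [pth_mem hy, List.mem_singleton] at hx
    rw [hx]; exact hyD
  · intro y hy ih hyD x hx
    rw [pth_not_mem hy (hf.hit y), List.mem_cons] at hx
    rcases hx with hx | hx
    · rw [hx]; exact hyD
    · exact ih (hD.map y hyD) x hx

theorem HG (h1 : G1_stmt) (h4 : G4_stmt) : HG_stmt := by
  classical
  intro V _ _ G C f g v ℓ r w b hb hf hv hg
  have hCl : Cl C (dn C f v) f := (h4 V G C).1 v f hf
  set D : Finset V := dn C f v with hD
  obtain ⟨hF, hrt, hdep, hpth⟩ := h1 V G C D f g hf hCl hg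
  have hfF := mem_fors.1 hf
  have hgF := mem_fors.1 hg
  set F : V → V := glue D f g with hFdef
  have hmem : ∀ x, x ∉ D → ∀ u, x ∈ pth C F u ↔ x ∈ pth D g u := by
    intro x hx u
    rw [hpth u x]
    constructor
    · rintro (h | h)
      · exact h
      · exact absurd (HG_pth_sub hfF hCl _ (hgF.rt_mem_B u) x h) hx
    · intro h; exact Or.inl h
  have hhx : ∀ x, x ∉ D → g x ∈ C → hx C ℓ r w F x = hx D ℓ r w g x := by
    intro x hxD hgx
    unfold hx
    apply Finset.sum_congr rfl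
    intro u _
    congr 1
    apply propext
    rw [hmem x hxD u]
    constructor
    · rintro ⟨h5, h6⟩
      refine ⟨h5, ?_⟩
      have h7 : rt D g u = g x := by
        rw [← hgF.rt_of_mem_pth u x h5, rt_not_mem hxD (hgF.hit x), rt_mem (hCl.sub hgx)]
      have h8 : lv C ℓ F u = lv D ℓ g u := by
        unfold lv
        rw [hrt u, hdep u, h7, rt_mem hgx, dep_mem hgx, add_zero]
      rw [h8] at h6
      exact h6
    · rintro ⟨h5, h6⟩
      refine ⟨h5, ?_⟩
      have h7 : rt D g u = g x := by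
        rw [← hgF.rt_of_mem_pth u x h5, rt_not_mem hxD (hgF.hit x), rt_mem (hCl.sub hgx)]
      have h8 : lv C ℓ F u = lv D ℓ g u := by
        unfold lv
        rw [hrt u, hdep u, h7, rt_mem hgx, dep_mem hgx, add_zero]
      rw [h8]
      exact h6
  have hT : ∑ x, ind (x ∈ D ∧ x ∉ C ∧ f x ∈ C) ≤ 1 := by
    apply HG_sum_ind_le
    rintro x y ⟨hx1, hx2, hx3⟩ ⟨hy1, hy2, hy3⟩
    have hx4 : x ∈ pth C f v := by
      rw [hD] at hx1
      unfold dn at hx1
      rw [Finset.mem_union, List.mem_toFinset] at hx1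
      exact hx1.resolve_left hx2
    have hy4 : y ∈ pth C f v := by
      rw [hD] at hy1
      unfold dn at hy1
      rw [Finset.mem_union, List.mem_toFinset] at hy1
      exact hy1.resolve_left hy2
    exact HG_top_unique hfF v x hx4 y hy4 hx2 hx3 hy2 hy3
  have hterm : ∀ x, ind (x ∉ C ∧ F x ∈ C) * min (hx C ℓ r w F x) b ≤
      ind (x ∉ D ∧ g x ∈ C) * min (hx D ℓ r w g x) b + b * ind (x ∈ D ∧ x ∉ C ∧ f x ∈ C) := by
    intro x
    by_cases hxD : x ∈ D
    · have hFx : F x = f x := by rw [hFdef]; unfold glue; rw [if_pos hxD]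
      have h5 : ind (x ∉ D ∧ g x ∈ C) = 0 := by
        unfold ind; rw [if_neg]; rintro ⟨h6, _⟩; exact h6 hxD
      rw [h5, zero_mul, zero_add, hFx]
      by_cases h6 : x ∉ C ∧ f x ∈ C
      · have h7 : ind (x ∉ C ∧ f x ∈ C) = 1 := by unfold ind; rw [if_pos h6]
        have h8 : ind (x ∈ D ∧ x ∉ C ∧ f x ∈ C) = 1 := by unfold ind; rw [if_pos ⟨hxD, h6⟩]
        rw [h7, h8, one_mul, mul_one]
        exact min_le_right _ _
      · have h7 : ind (x ∉ C ∧ f x ∈ C) = 0 := by unfold ind; rw [if_neg h6]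
        have h8 : ind (x ∈ D ∧ x ∉ C ∧ f x ∈ C) = 0 := by
          unfold ind; rw [if_neg]; rintro ⟨_, h9⟩; exact h6 h9
        rw [h7, h8, zero_mul, mul_zero]
    · have hFx : F x = g x := by rw [hFdef]; unfold glue; rw [if_neg hxD]
      have h8 : ind (x ∈ D ∧ x ∉ C ∧ f x ∈ C) = 0 := by
        unfold ind; rw [if_neg]; rintro ⟨h9, _⟩; exact hxD h9
      rw [h8, mul_zero, add_zero, hFx]
      by_cases h6 : g x ∈ C
      · have hxC : x ∉ C := fun h => hxD (hCl.sub h)
        have h7 : ind (x ∉ C ∧ g x ∈ C) = 1 := by unfold ind; rw [if_pos ⟨hxC, h6⟩]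
        have h9 : ind (x ∉ D ∧ g x ∈ C) = 1 := by unfold ind; rw [if_pos ⟨hxD, h6⟩]
        rw [h7, h9, hhx x hxD h6]
      · have h7 : ind (x ∉ C ∧ g x ∈ C) = 0 := by
          unfold ind; rw [if_neg]; rintro ⟨_, h9⟩; exact h6 h9
        have h9 : ind (x ∉ D ∧ g x ∈ C) = 0 := by
          unfold ind; rw [if_neg]; rintro ⟨_, h9⟩; exact h6 h9
        rw [h7, h9, zero_mul, zero_mul]
  unfold HB
  calc ∑ x, ind (x ∉ C ∧ F x ∈ C) * min (hx C ℓ r w F x) b
      ≤ ∑ x, (ind (x ∉ D ∧ g x ∈ C) * min (hx D ℓ r w g x) b +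
          b * ind (x ∈ D ∧ x ∉ C ∧ f x ∈ C)) := Finset.sum_le_sum fun x _ => hterm x
    _ = ∑ x, ind (x ∉ D ∧ g x ∈ C) * min (hx D ℓ r w g x) b +
          b * ∑ x, ind (x ∈ D ∧ x ∉ C ∧ f x ∈ C) := by
        rw [Finset.sum_add_distrib, Finset.mul_sum]
    _ ≤ ∑ x, ind (x ∉ D ∧ g x ∈ C) * min (hx D ℓ r w g x) b + b := by
        have := mul_le_mul_of_nonneg_left hT hb
        linarith

end Pool.Agent.helper90.FN
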