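import Pool.Agent.helper90.FN.Spec

/-! Module fn:OD -/

set_option autoImplicit false

namespace Pool.Agent.helper90.FN

open Finset

theorem OD : OD_stmt := by
  intro ι s p X Φ b ε hp hp1 hb hΦ hε h lam hlam
  set K : ℝ → ℝ := fun l => ∑ i ∈ s, p i * Real.exp (-(l * X i)) with hK
  set I : ℝ → ℝ := fun l => Φ * (1 - Real.exp (-(l * b))) / b with hI
  have hKd : ∀ l, HasDerivAt K (-(∑ i ∈ s, p i * (X i * Real.exp (-(l * X i))))) l := by
    intro l
    have h1 : ∀ i ∈ s, HasDerivAt (fun l : ℝ => p i * Real.exp (-(l * X i)))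
        (p i * (Real.exp (-(l * X i)) * -(X i))) l := by
      intro i _
      have h2 : HasDerivAt (fun l : ℝ => -(l * X i)) (-(X i)) l :=
        (((hasDerivAt_id l).mul_const (X i)).fun_neg).congr_deriv (by rw [one_mul])
      exact h2.exp.const_mul (p i)
    have h3 := HasDerivAt.fun_sum h1
    refine h3.congr_deriv ?_
    rw [← Finset.sum_neg_distrib]
    apply Finset.sum_congr rfl
    intro i _
    ring
  have hId : ∀ l, HasDerivAt I (Φ * Real.exp (-(l * b))) l := by
    intro l
    have h2 : HasDerivAt (fun l : ℝ => -(l * b)) (-b) l :=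
      (((hasDerivAt_id l).mul_const b).fun_neg).congr_deriv (by rw [one_mul])
    have h3 := ((h2.exp.const_sub 1).const_mul Φ).div_const b
    refine h3.congr_deriv ?_
    field_simp
  have hK0 : K 0 = 1 := by
    simp only [hK, zero_mul, neg_zero, Real.exp_zero, mul_one]
    exact hp1
  have hI0 : I 0 = 0 := by
    simp [hI]
  set H : ℝ → ℝ := fun l => K l * Real.exp (I l) - ε * Real.exp (I lam) * l with hH
  have hHd : ∀ l, HasDerivAt H (-(∑ i ∈ s, p i * (X i * Real.exp (-(l * X i)))) * Real.exp (I l)
      + K l * (Real.exp (I l) * (Φ * Real.exp (-(l * b)))) - ε * Real.exp (I lam)) l := by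
    intro l
    have h1 := ((hKd l).mul (hId l).exp).sub ((hasDerivAt_id l).const_mul (ε * Real.exp (I lam)))
    rw [mul_one] at h1
    exact h1
  have hanti : AntitoneOn H (Set.Icc 0 lam) := by
    apply antitoneOn_of_deriv_nonpos (convex_Icc 0 lam)
    · exact fun l _ => (hHd l).continuousAt.continuousWithinAt
    · exact fun l _ => (hHd l).differentiableAt.differentiableWithinAt
    · intro l hl
      rw [interior_Icc] at hl
      rw [(hHd l).deriv]
      have h2 := h l hl.1.le
      have h3 : I l ≤ I lam := by
        simp only [hI]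
        have h4 : Real.exp (-(lam * b)) ≤ Real.exp (-(l * b)) := by
          apply Real.exp_le_exp.2
          have : l * b ≤ lam * b := mul_le_mul_of_nonneg_right hl.2.le hb.le
          linarith
        apply div_le_div_of_nonneg_right _ hb.le
        apply mul_le_mul_of_nonneg_left _ hΦ
        linarith
      have h5 : Real.exp (I l) ≤ Real.exp (I lam) := Real.exp_le_exp.2 h3
      have h6 : 0 < Real.exp (I l) := Real.exp_pos _
      have h7 : -(∑ i ∈ s, p i * (X i * Real.exp (-(l * X i)))) +
          Φ * Real.exp (-(l * b)) * K l ≤ ε := by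
        have h8 : Real.exp (-(l * b)) * Φ * ∑ i ∈ s, p i * Real.exp (-(l * X i)) =
          Φ * Real.exp (-(l * b)) * K l := by
          simp only [hK]; ring
        rw [h8] at h2
        linarith
      have h9 : -(∑ i ∈ s, p i * (X i * Real.exp (-(l * X i)))) * Real.exp (I l)
          + K l * (Real.exp (I l) * (Φ * Real.exp (-(l * b)))) =
          (-(∑ i ∈ s, p i * (X i * Real.exp (-(l * X i)))) +
          Φ * Real.exp (-(l * b)) * K l) * Real.exp (I l) := by ring
      rw [h9]
      have h10 : (-(∑ i ∈ s, p i * (X i * Real.exp (-(l * X i)))) +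
          Φ * Real.exp (-(l * b)) * K l) * Real.exp (I l) ≤ ε * Real.exp (I l) :=
        mul_le_mul_of_nonneg_right h7 h6.le
      have h11 : ε * Real.exp (I l) ≤ ε * Real.exp (I lam) := mul_le_mul_of_nonneg_left h5 hε
      linarith
  have h12 : H lam ≤ H 0 := hanti ⟨le_rfl, hlam⟩ ⟨hlam, le_rfl⟩ hlam
  have h13 : K lam * Real.exp (I lam) ≤ 1 + ε * Real.exp (I lam) * lam := by
    simp only [hH] at h12
    rw [hK0, hI0, Real.exp_zero] at h12
    linarith
  have h14 : K lam ≤ Real.exp (-(I lam)) + lam * ε := by
    have h15 : 0 < Real.exp (-(I lam)) := Real.exp_pos _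
    have h16 : Real.exp (I lam) * Real.exp (-(I lam)) = 1 := by
      rw [← Real.exp_add, add_neg_cancel, Real.exp_zero]
    have h17 := mul_le_mul_of_nonneg_right h13 h15.le
    have h18 : K lam * Real.exp (I lam) * Real.exp (-(I lam)) = K lam := by
      rw [mul_assoc, h16, mul_one]
    have h19 : (1 + ε * Real.exp (I lam) * lam) * Real.exp (-(I lam)) =
        Real.exp (-(I lam)) + lam * ε * (Real.exp (I lam) * Real.exp (-(I lam))) := by ring
    rw [h18, h19, h16, mul_one] at h17
    exact h17
  have h20 : -(I lam) ≤ -(lam * Φ) + Φ * lam ^ 2 * b := by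
    have hy : 0 ≤ lam * b := mul_nonneg hlam hb.le
    have h21 : Real.exp (-(lam * b)) ≤ 1 - lam * b + (lam * b) ^ 2 := by
      have h22 : 1 + lam * b ≤ Real.exp (lam * b) := by
        have := Real.add_one_le_exp (lam * b)
        linarith
      have h23 : Real.exp (-(lam * b)) * Real.exp (lam * b) = 1 := by
        rw [← Real.exp_add, neg_add_cancel, Real.exp_zero]
      have h24 : 0 < Real.exp (-(lam * b)) := Real.exp_pos _
      have h25 : Real.exp (-(lam * b)) * (1 + lam * b) ≤ 1 := by
        calc Real.exp (-(lam * b)) * (1 + lam * b)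
            ≤ Real.exp (-(lam * b)) * Real.exp (lam * b) :=
              mul_le_mul_of_nonneg_left h22 h24.le
          _ = 1 := h23
      have h26 : 1 ≤ (1 - lam * b + (lam * b) ^ 2) * (1 + lam * b) := by
        have : (1 - lam * b + (lam * b) ^ 2) * (1 + lam * b) = 1 + (lam * b) ^ 3 := by ring
        rw [this]
        have := pow_nonneg hy 3
        linarith
      have h27 : 0 < 1 + lam * b := by linarith
      have h28 := h25.trans h26
      exact le_of_mul_le_mul_right h28 h27
    simp only [hI]
    have h29 : Φ * (1 - Real.exp (-(lam * b))) / b ≥ Φ * (lam * b - (lam * b) ^ 2) / b := by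
      apply div_le_div_of_nonneg_right _ hb.le
      apply mul_le_mul_of_nonneg_left _ hΦ
      linarith
    have h30 : Φ * (lam * b - (lam * b) ^ 2) / b = lam * Φ - Φ * lam ^ 2 * b := by
      field_simp
    rw [h30] at h29
    linarith
  calc K lam ≤ Real.exp (-(I lam)) + lam * ε := h14
    _ ≤ Real.exp (-(lam * Φ) + Φ * lam ^ 2 * b) + lam * ε := by
      have := Real.exp_le_exp.2 h20
      linarith

end Pool.Agent.helper90.FN
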