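import Pool.Agent.helper90.FN.Goals
import Pool.Agent.helper72.HP.A9
import Pool.Agent.helper72.HP.M2

/-! Module fn:SU (unit scale lemma) -/

set_option autoImplicit false

open scoped BigOperators Topology
open Filter MeasureTheory

namespace Pool.Agent.helper90.FN

open Finset
open Pool.Agent.helper72.UT
open Pool.Agent.helper20.HP (ind HW W Par cc run lel lst lazyP tmix ustE height vol Setup CZ CP IsKer
  wd FinalGoal par_eventually tmix_small M2_reg M2_kernel)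

/-! ### averages -/

section avg
variable {V : Type} [Fintype V] [DecidableEq V]

lemma SU_EF_mono (G : SimpleGraph V) (B : Finset V) (F F' : (V → V) → ℝ)
    (h : ∀ f ∈ fors G B, F f ≤ F' f) : EF G B F ≤ EF G B F' := by
  unfold EF
  apply div_le_div_of_nonneg_right (Finset.sum_le_sum h) (Nat.cast_nonneg _)

lemma SU_EF_add (G : SimpleGraph V) (B : Finset V) (F F' : (V → V) → ℝ) :
    EF G B (fun f => F f + F' f) = EF G B F + EF G B F' := by
  unfold EF
  rw [Finset.sum_add_distrib, add_div]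

lemma SU_EF_sum {ι : Type*} (s : Finset ι) (G : SimpleGraph V) (B : Finset V)
    (F : ι → (V → V) → ℝ) :
    EF G B (fun f => ∑ i ∈ s, F i f) = ∑ i ∈ s, EF G B (F i) := by
  unfold EF
  rw [Finset.sum_comm, Finset.sum_div]

lemma SU_EF_nonneg (G : SimpleGraph V) (B : Finset V) (F : (V → V) → ℝ)
    (h : ∀ f ∈ fors G B, 0 ≤ F f) : 0 ≤ EF G B F := by
  unfold EF
  exact div_nonneg (Finset.sum_nonneg h) (Nat.cast_nonneg _)

lemma SU_avJ_le [Nonempty V] (J : ℕ) (x : ℝ) (F : List V → ℝ) (b : ℝ)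
    (h : ∀ l : List V, l.length = J → x ≤ F l + b) : x ≤ avJ J F + b := by
  unfold avJ
  have hc : (0 : ℝ) < (Fintype.card V : ℝ) ^ J := by
    apply pow_pos
    exact_mod_cast Fintype.card_pos
  have h1 : ∑ a : Fin J → V, x ≤ ∑ a : Fin J → V, (F (List.ofFn a) + b) :=
    Finset.sum_le_sum fun a _ => h _ (by simp)
  rw [Finset.sum_add_distrib, Finset.sum_const, Finset.sum_const, Finset.card_univ,
    Fintype.card_fun, Fintype.card_fin, nsmul_eq_mul, nsmul_eq_mul] at h1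
  push_cast at h1
  have h2 : (Fintype.card V : ℝ) ^ J * (x - b) ≤ ∑ a : Fin J → V, F (List.ofFn a) := by
    linarith
  have h3 : x - b ≤ (∑ a : Fin J → V, F (List.ofFn a)) / (Fintype.card V : ℝ) ^ J := by
    rw [le_div_iff₀ hc]
    linarith
  linarith

lemma SU_ind_nonneg (p : Prop) : 0 ≤ ind p := by
  unfold ind; split_ifs <;> norm_num

lemma SU_ind_le_one (p : Prop) : ind p ≤ 1 := by
  unfold ind; split_ifs <;> norm_num

lemma SU_ind_pos {p : Prop} (h : p) : ind p = 1 := by unfold ind; rw [if_pos h]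

lemma SU_ind_neg {p : Prop} (h : ¬ p) : ind p = 0 := by unfold ind; rw [if_neg h]

end avg

/-! ### skeleton -/

section skel
variable {V : Type} [Fintype V] [DecidableEq V]

lemma SU_map_pth {G : SimpleGraph V} {B : Finset V} {f : V → V} (hf : IsFor G B f) (v : V) :
    ∀ x ∈ pth B f v, f x ∈ pth B f v := by
  refine hf.ind (P := fun v => ∀ x ∈ pth B f v, f x ∈ pth B f v) ?_ ?_ v
  · intro v hv x hx
    rw [pth_mem hv, List.mem_singleton] at hx ⊢
    rw [hx, hf.fix v hv]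
  · intro v hv ih x hx
    rw [pth_not_mem hv (hf.hit v), List.mem_cons] at hx ⊢
    rcases hx with hx | hx
    · right; rw [hx]; exact self_mem_pth _
    · right; exact ih x hx

lemma SU_sk_cl {G : SimpleGraph V} {B : Finset V} {f : V → V} (hf : f ∈ fors G B) (l : List V) :
    Cl B (sk B f l) f := by
  have hf' := mem_fors.1 hf
  constructor
  · unfold sk
    exact Finset.subset_union_left
  · intro x hx
    unfold sk at hx ⊢
    rw [Finset.mem_union] at hx ⊢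
    rcases hx with hx | hx
    · left; rw [hf'.fix x hx]; exact hx
    · right
      rw [Finset.mem_biUnion] at hx ⊢
      obtain ⟨v, hv, hx⟩ := hx
      refine ⟨v, hv, ?_⟩
      rw [List.mem_toFinset] at hx ⊢
      exact SU_map_pth hf' v x hx

lemma SU_bs_split (o : V) (f : V → V) (r w : ℕ) :
    bs o f r w = ∑ s ∈ range w, bs o f (r + s) 1 := by
  classical
  unfold bs
  rw [Finset.sum_comm]
  apply Finset.sum_congr rfl
  intro v _
  by_cases h : r ≤ dep {o} f v ∧ dep {o} f v < r + w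
  · rw [SU_ind_pos h, Finset.sum_eq_single (dep {o} f v - r)]
    · rw [SU_ind_pos]
      omega
    · intro s _ hs
      apply SU_ind_neg
      omega
    · intro h1
      exfalso
      apply h1
      rw [Finset.mem_range]
      omega
  · rw [SU_ind_neg h]
    symm
    apply Finset.sum_eq_zero
    intro s hs
    rw [Finset.mem_range] at hs
    apply SU_ind_neg
    omega

lemma SU_Phi_split (G : SimpleGraph V) (o : V) (f : V → V) (D : Finset V) (r w : ℕ) :
    PhiD G o f D r w = ∑ s ∈ range w, PhiD G o f D (r + s) 1 := by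
  unfold PhiD
  rw [← SU_EF_sum]
  congr 1
  funext g
  exact SU_bs_split o _ r w

lemma SU_Phi_nonneg (G : SimpleGraph V) (o : V) (f : V → V) (D : Finset V) (r w : ℕ) :
    0 ≤ PhiD G o f D r w := by
  unfold PhiD
  apply SU_EF_nonneg
  intro g _
  unfold bs
  exact Finset.sum_nonneg fun v _ => SU_ind_nonneg _

/-- vertices in `t` levels -/
lemma SU_levels (o : V) (f : V → V) (D : Finset V) (N : ℕ)
    (hw : ∀ q, (D.filter (fun x => dep {o} f x = q)).card ≤ N) (s t : ℕ) :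
    (D.filter (fun x => s ≤ dep {o} f x ∧ dep {o} f x < s + t)).card ≤ t * N := by
  classical
  have h1 : D.filter (fun x => s ≤ dep {o} f x ∧ dep {o} f x < s + t) ⊆
      (range t).biUnion (fun i => D.filter (fun x => dep {o} f x = s + i)) := by
    intro x hx
    rw [Finset.mem_filter] at hx
    rw [Finset.mem_biUnion]
    refine ⟨dep {o} f x - s, Finset.mem_range.2 (by omega), ?_⟩
    rw [Finset.mem_filter]
    exact ⟨hx.1, by omega⟩
  calc (D.filter (fun x => s ≤ dep {o} f x ∧ dep {o} f x < s + t)).card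
      ≤ ((range t).biUnion (fun i => D.filter (fun x => dep {o} f x = s + i))).card :=
        Finset.card_le_card h1
    _ ≤ ∑ i ∈ range t, (D.filter (fun x => dep {o} f x = s + i)).card := Finset.card_biUnion_le
    _ ≤ ∑ i ∈ range t, N := Finset.sum_le_sum fun i _ => hw _
    _ = t * N := by rw [Finset.sum_const, Finset.card_range, smul_eq_mul]

end skel

/-! ### real estimates -/

lemma SU_bound (κ M y L w h m Y1 Y2 A' P : ℝ) (hy : 2 ≤ y) (hL : 0 < L) (hw : 1 ≤ w) (hh : 0 < h)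
    (hM : 0 ≤ M) (h1 : h * y ^ 8 ≤ L) (h2 : L ≤ 2 * h * Y2) (hm0 : 0 ≤ m) (hm : m ≤ Y1 * L)
    (hY1 : 0 ≤ Y1) :
    2 * Real.exp (-(y / (w * L) * (κ * (w * L))) + (y * (w * L)) * (y / (w * L)) ^ 2 *
          (y ^ 4 * (1 + M * w) * (4 * h)))
        + (y / (w * L) * Real.exp (y / (w * L) * (y * (w * L))) * Real.exp (-(y ^ 4)) *
            (M * w) + 1 / (2 * y ^ 4 * h) * Real.exp (-(y ^ 4 / 2))) * m
        + Real.exp (3 - y / (A' * (1 + 3 * P))) ≤
      2 * Real.exp (-(κ * y) + 4 * (1 + M)) + (M * y * Y1 + Y1 * Y2) * Real.exp (-y) +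
        Real.exp (3 - y / (A' * (1 + 3 * P))) := by
  have hy0 : 0 < y := by linarith
  have hw0 : 0 < w := by linarith
  have hwL : 0 < w * L := mul_pos hw0 hL
  have e1 : y / (w * L) * (κ * (w * L)) = κ * y := by field_simp
  have e2 : (y * (w * L)) * (y / (w * L)) ^ 2 * (y ^ 4 * (1 + M * w) * (4 * h)) ≤ 4 * (1 + M) := by
    have e3 : (y * (w * L)) * (y / (w * L)) ^ 2 * (y ^ 4 * (1 + M * w) * (4 * h)) =
        4 * (y ^ 7 * (1 + M * w) * h) / (w * L) := by
      field_simp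
    rw [e3, div_le_iff₀ hwL]
    have e4 : 1 + M * w ≤ (1 + M) * w := by nlinarith
    have e5 : y ^ 7 * h ≤ L := by
      have e6 : y ^ 7 ≤ y ^ 8 := pow_le_pow_right₀ (by linarith) (by norm_num)
      calc y ^ 7 * h ≤ y ^ 8 * h := mul_le_mul_of_nonneg_right e6 hh.le
        _ = h * y ^ 8 := by ring
        _ ≤ L := h1
    have e7 : y ^ 7 * h * (1 + M * w) ≤ L * ((1 + M) * w) := by
      apply mul_le_mul e5 e4 _ hL.le
      positivity
    nlinarith
  have e8 : Real.exp (-(y / (w * L) * (κ * (w * L))) + (y * (w * L)) * (y / (w * L)) ^ 2 *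
          (y ^ 4 * (1 + M * w) * (4 * h))) ≤ Real.exp (-(κ * y) + 4 * (1 + M)) := by
    apply Real.exp_le_exp.2
    rw [e1]
    linarith
  have hy2 : y ^ 2 - y ^ 4 ≤ -y := by
    have : y ^ 4 = y ^ 2 * y ^ 2 := by ring
    have h3 : 4 ≤ y ^ 2 := by nlinarith
    nlinarith
  have hy4 : -(y ^ 4 / 2) ≤ -y := by
    have : y ^ 4 = y * y ^ 3 := by ring
    have h3 : 2 ≤ y ^ 3 := by
      have : (2 : ℝ) ^ 3 ≤ y ^ 3 := pow_le_pow_left₀ (by norm_num) hy 3
      linarith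
    nlinarith
  have e9 : y / (w * L) * Real.exp (y / (w * L) * (y * (w * L))) * Real.exp (-(y ^ 4)) *
            (M * w) * m ≤ M * y * Y1 * Real.exp (-y) := by
    have e10 : y / (w * L) * (y * (w * L)) = y ^ 2 := by field_simp
    rw [e10]
    have e11 : Real.exp (y ^ 2) * Real.exp (-(y ^ 4)) ≤ Real.exp (-y) := by
      rw [← Real.exp_add]
      apply Real.exp_le_exp.2
      linarith
    have e12 : y / (w * L) * Real.exp (y ^ 2) * Real.exp (-(y ^ 4)) * (M * w) * m =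
        (M * y * (m / L)) * (Real.exp (y ^ 2) * Real.exp (-(y ^ 4))) := by
      field_simp
    rw [e12]
    have e13 : m / L ≤ Y1 := by rw [div_le_iff₀ hL]; exact hm
    have e14 : 0 ≤ m / L := div_nonneg hm0 hL.le
    apply mul_le_mul _ e11 (by positivity) (by positivity)
    exact mul_le_mul_of_nonneg_left e13 (by positivity)
  have e15 : 1 / (2 * y ^ 4 * h) * Real.exp (-(y ^ 4 / 2)) * m ≤ Y1 * Y2 * Real.exp (-y) := by
    have e16 : 1 / (2 * y ^ 4 * h) * m ≤ Y1 * Y2 := by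
      rw [one_div, inv_mul_eq_div, div_le_iff₀ (by positivity)]
      have e17 : Y1 * L ≤ Y1 * (2 * h * Y2) := mul_le_mul_of_nonneg_left h2 hY1
      have e18 : 0 ≤ Y1 * (2 * h * Y2) := le_trans (by positivity) e17
      have e19 : (1 : ℝ) ≤ y ^ 4 := one_le_pow₀ (by linarith)
      calc m ≤ Y1 * L := hm
        _ ≤ Y1 * (2 * h * Y2) := e17
        _ ≤ Y1 * (2 * h * Y2) * y ^ 4 := le_mul_of_one_le_right e18 e19
        _ = Y1 * Y2 * (2 * y ^ 4 * h) := by ring
    have e20 : Real.exp (-(y ^ 4 / 2)) ≤ Real.exp (-y) := Real.exp_le_exp.2 hy4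
    have e21 : 0 ≤ 1 / (2 * y ^ 4 * h) * m := by positivity
    calc 1 / (2 * y ^ 4 * h) * Real.exp (-(y ^ 4 / 2)) * m
        = (1 / (2 * y ^ 4 * h) * m) * Real.exp (-(y ^ 4 / 2)) := by ring
      _ ≤ (1 / (2 * y ^ 4 * h) * m) * Real.exp (-y) := mul_le_mul_of_nonneg_left e20 e21
      _ ≤ Y1 * Y2 * Real.exp (-y) := mul_le_mul_of_nonneg_right e16 (Real.exp_pos _).le
  have e22 : (y / (w * L) * Real.exp (y / (w * L) * (y * (w * L))) * Real.exp (-(y ^ 4)) *
            (M * w) + 1 / (2 * y ^ 4 * h) * Real.exp (-(y ^ 4 / 2))) * m =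
      y / (w * L) * Real.exp (y / (w * L) * (y * (w * L))) * Real.exp (-(y ^ 4)) *
            (M * w) * m + 1 / (2 * y ^ 4 * h) * Real.exp (-(y ^ 4 / 2)) * m := by ring
  rw [e22]
  linarith

lemma SU_cond (M y L w h : ℝ) (hy : 2 ≤ y) (hyM : 4 * (1 + M) ≤ y) (hL : 0 < L) (hw : 1 ≤ w)
    (hh : 0 < h) (hM : 0 ≤ M) (h1 : h * y ^ 8 ≤ L) :
    y / (w * L) * (y ^ 4 * (1 + M * w) * (4 * h)) ≤ 1 := by
  have hy0 : 0 < y := by linarith
  have hw0 : 0 < w := by linarith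
  have hwL : 0 < w * L := mul_pos hw0 hL
  have e3 : y / (w * L) * (y ^ 4 * (1 + M * w) * (4 * h)) =
      4 * (y ^ 5 * (1 + M * w) * h) / (w * L) := by
    field_simp
  rw [e3, div_le_one hwL]
  have e4 : 1 + M * w ≤ (1 + M) * w := by nlinarith
  have e5 : 4 * (1 + M) * (y ^ 5 * h) ≤ L := by
    have e6 : y ^ 6 ≤ y ^ 8 := pow_le_pow_right₀ (by linarith) (by norm_num)
    calc 4 * (1 + M) * (y ^ 5 * h) ≤ y * (y ^ 5 * h) := by
          apply mul_le_mul_of_nonneg_right hyM (by positivity)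
      _ = y ^ 6 * h := by ring
      _ ≤ y ^ 8 * h := mul_le_mul_of_nonneg_right e6 hh.le
      _ = h * y ^ 8 := by ring
      _ ≤ L := h1
  have e7 : 4 * (y ^ 5 * (1 + M * w) * h) ≤ 4 * (y ^ 5 * ((1 + M) * w) * h) := by
    have : y ^ 5 * (1 + M * w) * h ≤ y ^ 5 * ((1 + M) * w) * h := by
      apply mul_le_mul_of_nonneg_right _ hh.le
      exact mul_le_mul_of_nonneg_left e4 (by positivity)
    linarith
  calc 4 * (y ^ 5 * (1 + M * w) * h) ≤ 4 * (y ^ 5 * ((1 + M) * w) * h) := e7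
    _ = w * (4 * (1 + M) * (y ^ 5 * h)) := by ring
    _ ≤ w * L := mul_le_mul_of_nonneg_left e5 hw0.le

/-! ### asymptotics -/

lemma SU_rpow {p q : ℝ} (hpq : p < q) (hq : 0 < q) {c : ℝ} (hc : 0 < c) (C : ℝ) :
    ∀ᶠ x : ℝ in atTop, x ^ p + C ≤ c * (x ^ q - 1) := by
  have h1 : Tendsto (fun x : ℝ => x ^ (-(q - p))) atTop (nhds 0) :=
    tendsto_rpow_neg_atTop (by linarith)
  have h2 : Tendsto (fun x : ℝ => x ^ q) atTop atTop := tendsto_rpow_atTop hq
  have h3 : ∀ᶠ x : ℝ in atTop, x ^ (-(q - p)) < c / 2 :=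
    h1.eventually_lt_const (by positivity)
  have h4 : ∀ᶠ x : ℝ in atTop, 2 * (C + c) / c ≤ x ^ q := h2.eventually_ge_atTop _
  filter_upwards [h3, h4, eventually_gt_atTop (0 : ℝ)] with x hx3 hx4 hx0
  have hxq : 0 < x ^ q := Real.rpow_pos_of_pos hx0 q
  have e1 : x ^ p = x ^ (-(q - p)) * x ^ q := by
    rw [← Real.rpow_add hx0]
    congr 1
    ring
  have e2 : x ^ p ≤ c / 2 * x ^ q := by
    rw [e1]
    exact mul_le_mul_of_nonneg_right hx3.le hxq.le
  have e3 : C + c ≤ c / 2 * x ^ q := by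
    rw [div_le_iff₀ hc] at hx4
    linarith
  linarith

theorem SU_scale (S : Setup) (c C1 cU : ℝ) (hc : 0 < c) (hcU : 0 < cU) :
    ∃ (q p1 p2 E : ℕ) (yy : ℕ → ℕ), 8 ≤ (q : ℝ) * c ∧ C1 ≤ p1 ∧ c ≤ p2 ∧
      Tendsto (fun k => (yy k : ℝ)) atTop atTop ∧
      ∀ᶠ k in atTop,
        (((yy k) ^ q : ℕ) : ℝ) ≤ (Fintype.card (S.V k) : ℝ) ^ c ∧
        (((yy k) ^ q : ℕ) : ℝ) + 1 ≤ (Fintype.card (S.V k) : ℝ) ^ cU ∧
        (yy k : ℝ) ^ (q * p1) ≤ (Fintype.card (S.V k) : ℝ) ^ cU ∧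
        4 * ((tmix (S.G k) + 1 : ℕ) : ℝ) * (yy k : ℝ) ^ (q * p2) ≤
          (Nat.sqrt (Fintype.card (S.V k)) : ℝ) ∧
        4 * (wd (Fintype.card (S.V k)) S.a : ℝ) * ((((yy k) ^ q : ℕ) : ℝ) + 1) ≤
          (Nat.sqrt (Fintype.card (S.V k)) : ℝ) ∧
        (Fintype.card (S.V k) : ℝ) ≤ (2 * (yy k : ℝ)) ^ E := by
  have ha0 : 0 < S.a := lt_min S.α_pos (by norm_num)
  have ha1 : S.a ≤ 1 / 4 := min_le_right _ _
  obtain ⟨q, hq⟩ : ∃ q : ℕ, 8 / c ≤ q := ⟨_, Nat.le_ceil _⟩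
  obtain ⟨p1, hp1⟩ : ∃ p1 : ℕ, C1 ≤ p1 := ⟨_, Nat.le_ceil _⟩
  obtain ⟨p2, hp2⟩ : ∃ p2 : ℕ, c ≤ p2 := ⟨_, Nat.le_ceil _⟩
  set P : ℕ := q * (p1 + p2 + 1) + 1 with hP
  set κ : ℝ := min c (min cU (S.a / 16)) with hκ
  have hκ0 : 0 < κ := lt_min hc (lt_min hcU (by positivity))
  have hκ1 : κ ≤ c := min_le_left _ _
  have hκ2 : κ ≤ cU := (min_le_right _ _).trans (min_le_left _ _)
  have hκ3 : κ ≤ S.a / 16 := (min_le_right _ _).trans (min_le_right _ _)
  have hP0 : (0 : ℝ) < P := by rw [hP]; positivity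
  set c' : ℝ := κ / (2 * P) with hc'
  have hc'0 : 0 < c' := by positivity
  have hc'P : c' * P = κ / 2 := by
    rw [hc']; field_simp
  obtain ⟨E, hE⟩ : ∃ E : ℕ, 1 / c' ≤ E := ⟨_, Nat.le_ceil _⟩
  have hn : Tendsto (fun k => ((Fintype.card (S.V k) : ℕ) : ℝ)) atTop atTop :=
    tendsto_natCast_atTop_atTop.comp S.card
  have hnc : Tendsto (fun k => ((Fintype.card (S.V k) : ℕ) : ℝ) ^ c') atTop atTop :=
    (tendsto_rpow_atTop hc'0).comp hn
  refine ⟨q, p1, p2, E, fun k => ⌊((Fintype.card (S.V k) : ℕ) : ℝ) ^ c'⌋₊, ?_, hp1, hp2, ?_, ?_⟩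
  · rw [div_le_iff₀ hc] at hq; exact hq
  · exact tendsto_natCast_atTop_atTop.comp (tendsto_nat_floor_atTop.comp hnc)
  have F1 := hn.eventually (SU_rpow (p := 1 / 2 - S.a + S.a / 32) (q := 1 / 2) (by linarith)
    (by norm_num) (c := 1 / 4) (by norm_num) 0)
  have F2 := hn.eventually (SU_rpow (p := 1 / 2 - S.a / 8 + S.a / 32) (q := 1 / 2) (by linarith)
    (by norm_num) (c := 1 / 8) (by norm_num) 0)
  have F3 : ∀ᶠ k in atTop, (2 : ℝ) ≤ ((Fintype.card (S.V k) : ℕ) : ℝ) ^ (κ / 2) :=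
    ((tendsto_rpow_atTop (by positivity)).comp hn).eventually_ge_atTop 2
  have F4 := tmix_small S 1 one_pos
  filter_upwards [F1, F2, F3, F4, hn.eventually_ge_atTop 1, hnc.eventually_ge_atTop 1] with k f1 f2
    f3 f4 f5 f6
  set n : ℕ := Fintype.card (S.V k) with hndef
  set y : ℕ := ⌊(n : ℝ) ^ c'⌋₊ with hy
  have hn0 : (0 : ℝ) < n := by linarith
  have hy1 : 1 ≤ y := by
    rw [hy]; exact Nat.le_floor (by simpa using f6)
  have hy1' : (1 : ℝ) ≤ y := by exact_mod_cast hy1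
  have hyle : (y : ℝ) ≤ (n : ℝ) ^ c' := by
    rw [hy]; exact Nat.floor_le (by positivity)
  have hyP : (y : ℝ) ^ P ≤ (n : ℝ) ^ (κ / 2) := by
    calc (y : ℝ) ^ P ≤ ((n : ℝ) ^ c') ^ P := pow_le_pow_left₀ (by positivity) hyle P
      _ = (n : ℝ) ^ (κ / 2) := by
        rw [← Real.rpow_natCast, ← Real.rpow_mul hn0.le, hc'P]
  have hpow : ∀ j : ℕ, j ≤ P → (y : ℝ) ^ j ≤ (n : ℝ) ^ (κ / 2) := fun j hj =>
    (pow_le_pow_right₀ hy1' hj).trans hyP
  have hqP : q ≤ P := by rw [hP]; nlinarith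
  have hq1P : q * p1 ≤ P := by rw [hP]; nlinarith
  have hq2P : q * p2 ≤ P := by rw [hP]; nlinarith
  have hs : (n : ℝ) ^ (1 / 2 : ℝ) - 1 ≤ (Nat.sqrt n : ℝ) := by
    rw [← Real.sqrt_eq_rpow]
    have := Real.real_sqrt_le_nat_sqrt_succ (a := n)
    linarith
  have hκκ : (n : ℝ) ^ (κ / 2) * (n : ℝ) ^ (κ / 2) = (n : ℝ) ^ κ := by
    rw [← Real.rpow_add hn0]; congr 1; ring
  have hyq : (((y ^ q : ℕ)) : ℝ) ≤ (n : ℝ) ^ (κ / 2) := by
    push_cast; exact hpow q hqP
  refine ⟨?_, ?_, ?_, ?_, ?_, ?_⟩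
  · exact hyq.trans (Real.rpow_le_rpow_of_exponent_le f5 (by linarith))
  · calc (((y ^ q : ℕ)) : ℝ) + 1 ≤ (n : ℝ) ^ (κ / 2) + (n : ℝ) ^ (κ / 2) := by linarith
      _ = 2 * (n : ℝ) ^ (κ / 2) := by ring
      _ ≤ (n : ℝ) ^ (κ / 2) * (n : ℝ) ^ (κ / 2) :=
          mul_le_mul_of_nonneg_right f3 (by positivity)
      _ = (n : ℝ) ^ κ := hκκ
      _ ≤ (n : ℝ) ^ cU := Real.rpow_le_rpow_of_exponent_le f5 hκ2
  · exact (hpow _ hq1P).trans (Real.rpow_le_rpow_of_exponent_le f5 (by linarith))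
  · have g1 : ((tmix (S.G k) + 1 : ℕ) : ℝ) ≤ (n : ℝ) ^ (1 / 2 - S.a) := by
      rw [one_mul] at f4; exact f4
    have g2 : ((tmix (S.G k) + 1 : ℕ) : ℝ) * (y : ℝ) ^ (q * p2) ≤
        (n : ℝ) ^ (1 / 2 - S.a + S.a / 32) := by
      calc ((tmix (S.G k) + 1 : ℕ) : ℝ) * (y : ℝ) ^ (q * p2)
          ≤ (n : ℝ) ^ (1 / 2 - S.a) * (n : ℝ) ^ (κ / 2) :=
            mul_le_mul g1 (hpow _ hq2P) (by positivity) (by positivity)
        _ = (n : ℝ) ^ (1 / 2 - S.a + κ / 2) := by rw [← Real.rpow_add hn0]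
        _ ≤ (n : ℝ) ^ (1 / 2 - S.a + S.a / 32) :=
            Real.rpow_le_rpow_of_exponent_le f5 (by linarith)
    linarith
  · have g1 : (wd n S.a : ℝ) ≤ (n : ℝ) ^ (1 / 2 - S.a / 8) := by
      unfold wd
      exact Nat.floor_le (by positivity)
    have g2 : (wd n S.a : ℝ) * ((((y ^ q : ℕ)) : ℝ) + 1) ≤
        2 * (n : ℝ) ^ (1 / 2 - S.a / 8 + S.a / 32) := by
      calc (wd n S.a : ℝ) * ((((y ^ q : ℕ)) : ℝ) + 1)
          ≤ (n : ℝ) ^ (1 / 2 - S.a / 8) * (2 * (n : ℝ) ^ (κ / 2)) :=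
            mul_le_mul g1 (by linarith) (by positivity) (by positivity)
        _ = 2 * (n : ℝ) ^ (1 / 2 - S.a / 8 + κ / 2) := by rw [Real.rpow_add hn0]; ring
        _ ≤ 2 * (n : ℝ) ^ (1 / 2 - S.a / 8 + S.a / 32) := by
            have := Real.rpow_le_rpow_of_exponent_le f5
              (show 1 / 2 - S.a / 8 + κ / 2 ≤ 1 / 2 - S.a / 8 + S.a / 32 by linarith)
            linarith
    linarith
  · have g1 : (n : ℝ) ^ c' ≤ 2 * y := by
      have := Nat.lt_floor_add_one ((n : ℝ) ^ c')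
      rw [← hy] at this
      linarith
    have g2 : (1 : ℝ) ≤ 2 * y := by linarith
    calc (n : ℝ) = ((n : ℝ) ^ c') ^ (1 / c') := by
          rw [← Real.rpow_mul hn0.le, mul_one_div, div_self hc'0.ne', Real.rpow_one]
      _ ≤ (2 * (y : ℝ)) ^ (1 / c') :=
          Real.rpow_le_rpow (by positivity) g1 (by positivity)
      _ ≤ (2 * (y : ℝ)) ^ (E : ℝ) := Real.rpow_le_rpow_of_exponent_le g2 hE
      _ = (2 * (y : ℝ)) ^ E := Real.rpow_natCast _ _

lemma SU_pow_exp (m : ℕ) (δ : ℝ) (hδ : 0 < δ) :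
    Tendsto (fun t : ℝ => t ^ m * Real.exp (-(δ * t))) atTop (𝓝 0) := by
  have h := tendsto_rpow_mul_exp_neg_mul_atTop_nhds_zero (m : ℝ) δ hδ
  refine h.congr ?_
  intro t
  rw [Real.rpow_natCast, neg_mul]

lemma SU_tend (κ M C2 A B η : ℝ) (a1 a2 E : ℕ) (hκ : 0 < κ) (hB : 0 < B) (hη : 0 < η) :
    ∀ᶠ t : ℝ in atTop, C2 / t + 2 * (A + 1) * (2 * t) ^ E *
      (2 * Real.exp (-(κ * t) + 4 * (1 + M)) + (M * t * t ^ a1 + t ^ a1 * t ^ a2) * Real.exp (-t) +
        Real.exp (3 - t / B)) ≤ η := by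
  have h1 : Tendsto (fun t : ℝ => C2 / t + ((2 * (A + 1) * 2 ^ E * (2 * Real.exp (4 * (1 + M)))) *
      (t ^ E * Real.exp (-(κ * t))) + (2 * (A + 1) * 2 ^ E * M) *
      (t ^ (E + 1 + a1) * Real.exp (-(1 * t))) + (2 * (A + 1) * 2 ^ E) *
      (t ^ (E + a1 + a2) * Real.exp (-(1 * t))) + (2 * (A + 1) * 2 ^ E * Real.exp 3) *
      (t ^ E * Real.exp (-(1 / B * t))))) atTop (𝓝 (0 + (((2 * (A + 1) * 2 ^ E *
      (2 * Real.exp (4 * (1 + M)))) * 0 + (2 * (A + 1) * 2 ^ E * M) * 0 + (2 * (A + 1) * 2 ^ E) * 0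
      + (2 * (A + 1) * 2 ^ E * Real.exp 3) * 0)))) := by
    apply Tendsto.add (tendsto_const_nhds.div_atTop tendsto_id)
    apply Tendsto.add
    · apply Tendsto.add
      · apply Tendsto.add
        · exact (SU_pow_exp E κ hκ).const_mul _
        · exact (SU_pow_exp _ 1 one_pos).const_mul _
      · exact (SU_pow_exp _ 1 one_pos).const_mul _
    · exact (SU_pow_exp E (1 / B) (by positivity)).const_mul _
  have h2 : (0 + (((2 * (A + 1) * 2 ^ E *
      (2 * Real.exp (4 * (1 + M)))) * 0 + (2 * (A + 1) * 2 ^ E * M) * 0 + (2 * (A + 1) * 2 ^ E) * 0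
      + (2 * (A + 1) * 2 ^ E * Real.exp 3) * 0))) = (0 : ℝ) := by ring
  rw [h2] at h1
  filter_upwards [h1.eventually_lt_const hη] with t ht
  refine le_trans (le_of_eq ?_) ht.le
  have e1 : Real.exp (-(κ * t) + 4 * (1 + M)) = Real.exp (-(κ * t)) * Real.exp (4 * (1 + M)) := by
    rw [← Real.exp_add]
  have e2 : Real.exp (3 - t / B) = Real.exp 3 * Real.exp (-(1 / B * t)) := by
    rw [← Real.exp_add]; congr 1; ring
  rw [e1, e2, one_mul, mul_pow]
  ring

/-! ### the deterministic part -/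

lemma SU_det (hCAP : CAP_stmt) {V : Type} [Fintype V] [DecidableEq V] (G : SimpleGraph V) (d : ℕ)
    (K : HW V) (θ : ℝ) (h₀ h : ℕ) (hReg : Reg G d) (hKp : K.p = lz G d) (hPar : Par K θ h₀)
    (h2 : 2 * h₀ ≤ h) (h4 : 4 * h ≤ Nat.sqrt (Fintype.card V)) (o : V) (f : V → V) (D : Finset V)
    (hf : f ∈ fors G {o}) (hCl : Cl {o} D f) (hHit : Hit K D h) (N : ℕ)
    (hwid : ∀ q, (D.filter (fun x => dep {o} f x = q)).card ≤ N) (w : ℕ) (hw : 1 ≤ w)
    (AA Q L : ℝ) (hwN : 2 * (w : ℝ) * N ≤ L)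
    (hE1 : ∀ i : ℕ, (i : ℝ) * w ≤ AA → PhiD G o f D (i * w) w ≤ (Q + 1) * (w * L)) (y : ℕ)
    (hy : (y : ℝ) ≤ AA) : PhiD G o f D y 1 ≤ MC θ * (|Q| + 2) * L := by
  have hM0 : 0 ≤ MC θ := by
    have h1 := hPar.one_le
    unfold MC CZ
    positivity
  obtain ⟨hc1, hc2⟩ := hCAP V G d K θ h₀ h hReg hKp hPar h2 h4 o f D hf hCl hHit
  have hw0 : (0 : ℝ) < w := by exact_mod_cast hw
  have hN0 : (0 : ℝ) ≤ N := Nat.cast_nonneg _
  have hL0 : 0 ≤ L := le_trans (by positivity) hwN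
  have hQ : Q ≤ |Q| := le_abs_self Q
  have hQ0 : 0 ≤ |Q| := abs_nonneg Q
  obtain ⟨i, s, hs, hys⟩ : ∃ i s : ℕ, s < w ∧ y = i * w + s :=
    ⟨y / w, y % w, Nat.mod_lt _ hw, by rw [mul_comm]; exact (Nat.div_add_mod y w).symm⟩
  rcases Nat.eq_zero_or_pos i with hi | hi
  · subst hi
    have h5 := hc2 y
    have h6 : ((D.filter (fun x => dep {o} f x ≤ y)).card : ℝ) ≤ w * N := by
      have h7 : (D.filter (fun x => dep {o} f x ≤ y)).card ≤ w * N := by
        refine le_trans (Finset.card_le_card ?_) (SU_levels o f D N hwid 0 w)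
        intro x hx
        rw [Finset.mem_filter] at hx ⊢
        exact ⟨hx.1, Nat.zero_le _, by omega⟩
      exact_mod_cast h7
    have h8 : (w : ℝ) * N ≤ L := by
      have : 0 ≤ (w : ℝ) * N := by positivity
      linarith
    calc PhiD G o f D y 1 ≤ MC θ * ((D.filter (fun x => dep {o} f x ≤ y)).card : ℝ) := h5
      _ ≤ MC θ * L := mul_le_mul_of_nonneg_left (h6.trans h8) hM0
      _ ≤ MC θ * (|Q| + 2) * L := by
        rw [mul_assoc]
        apply mul_le_mul_of_nonneg_left _ hM0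
        nlinarith
  · obtain ⟨j, rfl⟩ : ∃ j, i = j + 1 := ⟨i - 1, by omega⟩
    have hjw : ((j : ℕ) : ℝ) * w ≤ AA := by
      refine le_trans ?_ hy
      have : j * w ≤ y := by rw [hys]; nlinarith
      exact_mod_cast this
    have h5 := hE1 j hjw
    rw [SU_Phi_split] at h5
    have h6 : ∀ t ∈ range w, PhiD G o f D y 1 ≤
        MC θ * (PhiD G o f D (j * w + t) 1 + 2 * w * N) := by
      intro t ht
      rw [Finset.mem_range] at ht
      have h7 := hc1 (j * w + t) y (by rw [hys, add_mul]; omega)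
      refine h7.trans ?_
      apply mul_le_mul_of_nonneg_left _ hM0
      have h8 : (D.filter (fun x => j * w + t < dep {o} f x ∧ dep {o} f x ≤ y)).card ≤
          (2 * w) * N := by
        refine le_trans (Finset.card_le_card ?_) (SU_levels o f D N hwid (j * w) (2 * w))
        intro x hx
        rw [Finset.mem_filter] at hx ⊢
        refine ⟨hx.1, by omega, ?_⟩
        have h9 : y < j * w + 2 * w := by rw [hys, add_mul]; omega
        omega
      have h10 : ((D.filter (fun x => j * w + t < dep {o} f x ∧ dep {o} f x ≤ y)).card : ℝ) ≤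
          2 * w * N := by exact_mod_cast h8
      linarith
    have h11 : (w : ℝ) * PhiD G o f D y 1 ≤
        MC θ * ((Q + 1) * (w * L) + w * (2 * w * N)) := by
      have h12 := Finset.sum_le_sum h6
      rw [Finset.sum_const, Finset.card_range, nsmul_eq_mul, ← Finset.mul_sum,
        Finset.sum_add_distrib, Finset.sum_const, Finset.card_range, nsmul_eq_mul] at h12
      refine h12.trans ?_
      apply mul_le_mul_of_nonneg_left _ hM0
      linarith
    have h13 : (Q + 1) * (w * L) + w * (2 * w * N) ≤ w * ((|Q| + 2) * L) := by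
      have h14 : (w : ℝ) * (2 * w * N) ≤ w * L := mul_le_mul_of_nonneg_left hwN hw0.le
      have h15 : (Q + 1) * (w * L) ≤ (|Q| + 1) * (w * L) :=
        mul_le_mul_of_nonneg_right (by linarith) (by positivity)
      linarith
    have h16 := mul_le_mul_of_nonneg_left h13 hM0
    have h17 : (w : ℝ) * PhiD G o f D y 1 ≤ w * (MC θ * (|Q| + 2) * L) := by
      have : MC θ * (w * ((|Q| + 2) * L)) = w * (MC θ * (|Q| + 2) * L) := by ring
      linarith
    exact le_of_mul_le_mul_left h17 hw0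

/-! ### the theorem -/

theorem SU : SU_stmt := by
  classical
  intro hSL hWD hB hCU hCAP S K hK A Q ε η hA hε hη
  obtain ⟨c, C₁, C₂, hc, hC1, hC2, hBev⟩ := hB S K hK
  set θ : ℝ := max S.θ 1 with hθ
  have hθ1 : 1 ≤ θ := le_max_right _ _
  have hM0 : 0 ≤ MC θ := by unfold MC CZ; positivity
  have hP0 : 0 ≤ CP θ := by unfold CP CZ; positivity
  obtain ⟨cU, hcU, hUev⟩ := hCU S K hK A (MC θ * (|Q| + 2)) (ε / 6) (by positivity)
  obtain ⟨q, p1, p2, E, yy, hq, hp1, hp2, hyy, hsc⟩ := SU_scale S c C₁ cU hc hcU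
  set κ : ℝ := min (ε / 3) 1 with hκ
  have hκ0 : 0 < κ := lt_min (by positivity) one_pos
  have hκ1 : κ ≤ ε / 3 := min_le_left _ _
  have hκ2 : κ ≤ 1 := min_le_right _ _
  have hB0 : 0 < (A + 2) * (1 + 3 * CP θ) := by
    apply mul_pos (by linarith) (by linarith)
  have hfin := hyy.eventually (SU_tend κ (MC θ) C₂ A ((A + 2) * (1 + 3 * CP θ)) η (q * p1) (q * p2)
    E hκ0 hB0 hη)
  filter_upwards [hBev, hUev, hsc, hfin, hyy.eventually_ge_atTop (max 2 (4 * (1 + MC θ))),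
    par_eventually S K hK, S.card.eventually_ge_atTop 2] with k hBk hUk hsck hfink hyk hPar hcard2
    w hw1 hw2
  obtain ⟨s1, s2, s3, s4, s5, s6⟩ := hsck
  obtain ⟨d, hReg⟩ := M2_reg (S.G k) (S.conn k) (S.trans k) hcard2
  have hKp := M2_kernel hReg (K k) (fun t x y => hK k t x y)
  have hne : Nonempty (S.V k) := ⟨S.o k⟩
  set y : ℕ := yy k with hydef
  set J : ℕ := y ^ q with hJ
  set L : ℝ := (Nat.sqrt (Fintype.card (S.V k)) : ℝ) with hL
  set n : ℝ := (Fintype.card (S.V k) : ℝ) with hn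
  set wn : ℕ := wd (Fintype.card (S.V k)) S.a with hwn
  have hy2 : (2 : ℝ) ≤ y := (le_max_left _ _).trans hyk
  have hyM : 4 * (1 + MC θ) ≤ y := (le_max_right _ _).trans hyk
  have hy0 : (0 : ℝ) < y := by linarith
  have hy1 : (1 : ℝ) ≤ y := by linarith
  have hn1 : (1 : ℝ) ≤ n := by
    have : 1 ≤ Fintype.card (S.V k) := by omega
    rw [hn]; exact_mod_cast this
  have hn0 : (0 : ℝ) < n := by linarith
  have hJ1 : 1 ≤ J := by
    rw [hJ]; apply Nat.one_le_pow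
    have : (0 : ℝ) < (y : ℕ) := hy0
    exact_mod_cast this
  have hJ1' : (1 : ℝ) ≤ J := by exact_mod_cast hJ1
  have hJ0 : (0 : ℝ) < J := by linarith
  have hJy : (J : ℝ) = (y : ℝ) ^ q := by rw [hJ]; push_cast; rfl
  have hwn1 : 1 ≤ wn := by
    rw [hwn]; unfold wd
    apply Nat.le_floor
    rw [Nat.cast_one]
    apply Real.one_le_rpow
    · exact hn1
    · have ha1 : S.a ≤ 1 / 4 := min_le_right _ _
      linarith
  have hw1' : 1 ≤ w := hwn1.trans hw1
  have hwR : (1 : ℝ) ≤ w := by exact_mod_cast hw1'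
  have hwn0 : (0 : ℝ) ≤ wn := Nat.cast_nonneg _
  have hw2' : (w : ℝ) ≤ 2 * wn := by exact_mod_cast hw2
  -- `L`
  have hL8 : 8 * (wn : ℝ) ≤ L := by
    have : 4 * (wn : ℝ) * 2 ≤ 4 * (wn : ℝ) * ((J : ℝ) + 1) := by
      apply mul_le_mul_of_nonneg_left _ (by positivity)
      linarith
    linarith
  have hLpos : 0 < L := by
    have : (1 : ℝ) ≤ wn := by exact_mod_cast hwn1
    linarith
  have hwL : (w : ℝ) ≤ L := by linarith
  have hL1 : 1 ≤ L := hwR.trans hwL
  have hLn : L ≤ n := by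
    rw [hL, hn]
    exact_mod_cast Nat.sqrt_le_self _
  -- powers
  have hJc0 : 0 < (J : ℝ) ^ (-c) := Real.rpow_pos_of_pos hJ0 _
  have hJc : (J : ℝ) ^ (-c) * (y : ℝ) ^ 8 ≤ 1 := by
    rw [Real.rpow_neg hJ0.le, inv_mul_eq_div, div_le_one (Real.rpow_pos_of_pos hJ0 _), hJy,
      ← Real.rpow_natCast (y : ℝ) q, ← Real.rpow_mul hy0.le, ← Real.rpow_natCast (y : ℝ) 8]
    apply Real.rpow_le_rpow_of_exponent_le hy1
    push_cast
    linarith
  have hJp2 : 1 ≤ (J : ℝ) ^ (-c) * (y : ℝ) ^ (q * p2) := by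
    rw [Real.rpow_neg hJ0.le, inv_mul_eq_div, one_le_div (Real.rpow_pos_of_pos hJ0 _), pow_mul,
      ← hJy, ← Real.rpow_natCast (J : ℝ) p2]
    exact Real.rpow_le_rpow_of_exponent_le hJ1' hp2
  have hJp1 : (J : ℝ) ^ C₁ ≤ (y : ℝ) ^ (q * p1) := by
    rw [pow_mul, ← hJy, ← Real.rpow_natCast (J : ℝ) p1]
    exact Real.rpow_le_rpow_of_exponent_le hJ1' hp1
  set h : ℕ := ⌊L * (J : ℝ) ^ (-c)⌋₊ with hh
  have hhle : (h : ℝ) ≤ L * (J : ℝ) ^ (-c) := by
    rw [hh]; exact Nat.floor_le (by positivity)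
  have hh8 : (h : ℝ) * (y : ℝ) ^ 8 ≤ L := by
    calc (h : ℝ) * (y : ℝ) ^ 8 ≤ L * (J : ℝ) ^ (-c) * (y : ℝ) ^ 8 :=
          mul_le_mul_of_nonneg_right hhle (by positivity)
      _ = L * ((J : ℝ) ^ (-c) * (y : ℝ) ^ 8) := by ring
      _ ≤ L * 1 := mul_le_mul_of_nonneg_left hJc hLpos.le
      _ = L := mul_one L
  have hY2 : (0 : ℝ) < (y : ℝ) ^ (q * p2) := by positivity
  have hLJ : 4 * ((tmix (S.G k) + 1 : ℕ) : ℝ) ≤ L * (J : ℝ) ^ (-c) := by
    have e1 : 4 * ((tmix (S.G k) + 1 : ℕ) : ℝ) * (y : ℝ) ^ (q * p2) ≤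
        L * (J : ℝ) ^ (-c) * (y : ℝ) ^ (q * p2) := by
      calc 4 * ((tmix (S.G k) + 1 : ℕ) : ℝ) * (y : ℝ) ^ (q * p2) ≤ L := s4
        _ = L * 1 := (mul_one L).symm
        _ ≤ L * ((J : ℝ) ^ (-c) * (y : ℝ) ^ (q * p2)) := mul_le_mul_of_nonneg_left hJp2 hLpos.le
        _ = L * (J : ℝ) ^ (-c) * (y : ℝ) ^ (q * p2) := by ring
    exact le_of_mul_le_mul_right e1 hY2
  have ht1 : (1 : ℝ) ≤ ((tmix (S.G k) + 1 : ℕ) : ℝ) := by
    push_cast
    have : (0 : ℝ) ≤ (tmix (S.G k) : ℝ) := Nat.cast_nonneg _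
    linarith
  have hhalf : L * (J : ℝ) ^ (-c) ≤ 2 * h := by
    have e1 := Nat.lt_floor_add_one (L * (J : ℝ) ^ (-c))
    rw [← hh] at e1
    linarith
  have hh0R : (0 : ℝ) < h := by linarith
  have h2h : 2 * (tmix (S.G k) + 1) ≤ h := by
    have : 2 * ((tmix (S.G k) + 1 : ℕ) : ℝ) ≤ h := by linarith
    exact_mod_cast this
  have h4h : 4 * h ≤ Nat.sqrt (Fintype.card (S.V k)) := by
    have e1 : (4 : ℝ) ≤ (y : ℝ) ^ 8 := by
      have : (2 : ℝ) ^ 8 ≤ (y : ℝ) ^ 8 := pow_le_pow_left₀ (by norm_num) hy2 8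
      linarith
    have e2 : 4 * (h : ℝ) ≤ (h : ℝ) * (y : ℝ) ^ 8 := by nlinarith
    have e3 : 4 * (h : ℝ) ≤ (Nat.sqrt (Fintype.card (S.V k)) : ℝ) := e2.trans hh8
    exact_mod_cast e3
  have hL2 : L ≤ 2 * h * (y : ℝ) ^ (q * p2) := by
    calc L = L * 1 := (mul_one L).symm
      _ ≤ L * ((J : ℝ) ^ (-c) * (y : ℝ) ^ (q * p2)) := mul_le_mul_of_nonneg_left hJp2 hLpos.le
      _ = L * (J : ℝ) ^ (-c) * (y : ℝ) ^ (q * p2) := by ring
      _ ≤ 2 * h * (y : ℝ) ^ (q * p2) := mul_le_mul_of_nonneg_right hhalf hY2.le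
  set m : ℝ := (J : ℝ) ^ C₁ * L with hm
  have hm0 : 0 ≤ m := by positivity
  have hmY : m ≤ (y : ℝ) ^ (q * p1) * L := mul_le_mul_of_nonneg_right hJp1 hLpos.le
  -- the bound from SL1
  set Bd : ℝ := 2 * Real.exp (-(κ * y) + 4 * (1 + MC θ)) + (MC θ * y * (y : ℝ) ^ (q * p1) +
    (y : ℝ) ^ (q * p1) * (y : ℝ) ^ (q * p2)) * Real.exp (-(y : ℝ)) +
    Real.exp (3 - y / ((A + 2) * (1 + 3 * CP θ))) with hBd
  have hBd0 : 0 ≤ Bd := by rw [hBd]; positivity
  have hSLk : ∀ (l : List (S.V k)) (r w' : ℕ), 1 ≤ w' → (r : ℝ) + w' ≤ (A + 2) * L →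
      EF (S.G k) {S.o k} (fun f => ind (Hit (K k) (sk {S.o k} f l) h ∧
        ((sk {S.o k} f l).card : ℝ) ≤ m ∧
        κ * (w' * L) < |bs (S.o k) f r w' - PhiD (S.G k) (S.o k) f (sk {S.o k} f l) r w'|)) ≤
        Bd := by
    intro l r w' hw' hr
    have hw'R : (1 : ℝ) ≤ w' := by exact_mod_cast hw'
    have hw'L : 0 < (w' : ℝ) * L := by positivity
    have e1 := hSL (S.V k) (S.G k) d (K k) θ (tmix (S.G k) + 1) h hReg hKp hPar h2h h4h (S.o k) l r
      w' (A + 2) ((y : ℝ) / (w' * L)) (κ * (w' * L)) ((y : ℝ) ^ 4) y m (by linarith) hw' hr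
      (by positivity) (by positivity) (by positivity) hy0.le hm0
      (SU_cond (MC θ) y L w' h hy2 hyM hLpos hw'R hh0R hM0 hh8)
    exact e1.trans (SU_bound κ (MC θ) y L w' h m ((y : ℝ) ^ (q * p1)) ((y : ℝ) ^ (q * p2)) (A + 2)
      (CP θ) hy2 hLpos hw'R hh0R hM0 hh8 hL2 hm0 hmY (by positivity))
  -- index sets
  set R : Finset ℕ := range (⌊A * L⌋₊ + 1) with hR
  have hAL0 : 0 ≤ A * L := by positivity
  have hRcard : (R.card : ℝ) ≤ A * L + 1 := by
    rw [hR, Finset.card_range]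
    push_cast
    have := Nat.floor_le hAL0
    linarith
  have hRmem : ∀ r : ℕ, (r : ℝ) ≤ A * L → r ∈ R := by
    intro r hr
    rw [hR, Finset.mem_range]
    have := Nat.le_floor hr
    omega
  set R1 : Finset ℕ := R.filter (fun r : ℕ => (r : ℝ) ≤ A * L) with hR1
  set R2 : Finset ℕ := R.filter (fun i : ℕ => (i : ℝ) * w ≤ A * L) with hR2
  have hR1c : (R1.card : ℝ) ≤ A * L + 1 := by
    have : (R1.card : ℝ) ≤ R.card := by exact_mod_cast Finset.card_filter_le _ _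
    linarith
  have hR2c : (R2.card : ℝ) ≤ A * L + 1 := by
    have : (R2.card : ℝ) ≤ R.card := by exact_mod_cast Finset.card_filter_le _ _
    linarith
  have hR2mem : ∀ i : ℕ, (i : ℝ) * w ≤ A * L → i ∈ R2 := by
    intro i hi
    rw [hR2, Finset.mem_filter]
    refine ⟨hRmem i ?_, hi⟩
    have : (i : ℝ) * 1 ≤ (i : ℝ) * w := mul_le_mul_of_nonneg_left hwR (Nat.cast_nonneg _)
    linarith
  have hR1mem : ∀ r : ℕ, (r : ℝ) ≤ A * L → r ∈ R1 := by
    intro r hr
    rw [hR1, Finset.mem_filter]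
    exact ⟨hRmem r hr, hr⟩
  -- the event
  set Ev : (S.V k → S.V k) → Prop := fun f =>
    (∀ i : ℕ, (i : ℝ) * w ≤ A * L → bs (S.o k) f (i * w) w ≤ Q * (w * L)) ∧
      (∃ r r' : ℕ, (r : ℝ) ≤ A * L ∧ (r' : ℝ) ≤ A * L ∧ |(r : ℝ) - r'| ≤ w ∧
        ε * L < |bs (S.o k) f r 1 - bs (S.o k) f r' 1|) with hEv
  have hpoint : ∀ l : List (S.V k), l.length = J → ∀ f ∈ fors (S.G k) {S.o k},
      ind (Ev f) ≤ ind (¬ (Hit (K k) (sk {S.o k} f l) h ∧ ((sk {S.o k} f l).card : ℝ) ≤ m)) +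
        (∑ r ∈ R1, ind (Hit (K k) (sk {S.o k} f l) h ∧ ((sk {S.o k} f l).card : ℝ) ≤ m ∧
          κ * ((1 : ℕ) * L) < |bs (S.o k) f r 1 -
            PhiD (S.G k) (S.o k) f (sk {S.o k} f l) r 1|) +
        ∑ i ∈ R2, ind (Hit (K k) (sk {S.o k} f l) h ∧ ((sk {S.o k} f l).card : ℝ) ≤ m ∧
          κ * (w * L) < |bs (S.o k) f (i * w) w -
            PhiD (S.G k) (S.o k) f (sk {S.o k} f l) (i * w) w|)) := by
    intro l hl f hf
    set D : Finset (S.V k) := sk {S.o k} f l with hD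
    have hs1 : 0 ≤ ∑ r ∈ R1, ind (Hit (K k) D h ∧ (D.card : ℝ) ≤ m ∧
          κ * ((1 : ℕ) * L) < |bs (S.o k) f r 1 - PhiD (S.G k) (S.o k) f D r 1|) :=
      Finset.sum_nonneg fun r _ => SU_ind_nonneg _
    have hs2 : 0 ≤ ∑ i ∈ R2, ind (Hit (K k) D h ∧ (D.card : ℝ) ≤ m ∧
          κ * (w * L) < |bs (S.o k) f (i * w) w - PhiD (S.G k) (S.o k) f D (i * w) w|) :=
      Finset.sum_nonneg fun r _ => SU_ind_nonneg _
    have hs0 := SU_ind_nonneg (¬ (Hit (K k) D h ∧ (D.card : ℝ) ≤ m))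
    have hle1 := SU_ind_le_one (Ev f)
    by_cases hg : Hit (K k) D h ∧ (D.card : ℝ) ≤ m
    · by_cases h1 : ∃ r ∈ R1, κ * ((1 : ℕ) * L) <
          |bs (S.o k) f r 1 - PhiD (S.G k) (S.o k) f D r 1|
      · obtain ⟨r, hr, h1⟩ := h1
        have e1 := Finset.single_le_sum (f := fun r => ind (Hit (K k) D h ∧ (D.card : ℝ) ≤ m ∧
          κ * ((1 : ℕ) * L) < |bs (S.o k) f r 1 - PhiD (S.G k) (S.o k) f D r 1|))
          (fun r _ => SU_ind_nonneg _) hr
        rw [SU_ind_pos ⟨hg.1, hg.2, h1⟩] at e1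
        linarith
      · by_cases h2 : ∃ i ∈ R2, κ * (w * L) <
            |bs (S.o k) f (i * w) w - PhiD (S.G k) (S.o k) f D (i * w) w|
        · obtain ⟨i, hi, h2⟩ := h2
          have e1 := Finset.single_le_sum (f := fun i => ind (Hit (K k) D h ∧ (D.card : ℝ) ≤ m ∧
            κ * (w * L) < |bs (S.o k) f (i * w) w - PhiD (S.G k) (S.o k) f D (i * w) w|))
            (fun r _ => SU_ind_nonneg _) hi
          rw [SU_ind_pos ⟨hg.1, hg.2, h2⟩] at e1
          linarith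
        · push Not at h1 h2
          have hnE : ¬ Ev f := by
            rintro ⟨hE1, r, r', hr, hr', hrr, hE2⟩
            have hCl : Cl {S.o k} D f := SU_sk_cl hf l
            obtain ⟨hwid, _, _⟩ := hWD (S.V k) (S.G k) (S.o k) f l hf
            rw [hl] at hwid
            have hdet := SU_det hCAP (S.G k) d (K k) θ (tmix (S.G k) + 1) h hReg hKp hPar h2h h4h
              (S.o k) f D hf hCl hg.1 (J + 1) hwid w hw1' (A * L) Q L (by
                push_cast
                have e1 : 2 * (w : ℝ) * ((J : ℝ) + 1) ≤ 2 * (2 * wn) * ((J : ℝ) + 1) := by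
                  apply mul_le_mul_of_nonneg_right _ (by linarith)
                  linarith
                have e2 : 2 * (2 * (wn : ℝ)) * ((J : ℝ) + 1) = 4 * wn * ((J : ℝ) + 1) := by ring
                linarith) (by
                intro i hi
                have e1 := hE1 i hi
                have e2 := h2 i (hR2mem i hi)
                have e3 := (abs_le.1 e2).1
                have e4 : κ * (w * L) ≤ 1 * (w * L) :=
                  mul_le_mul_of_nonneg_right hκ2 (by positivity)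
                linarith)
            have hDc : (D.card : ℝ) ≤ n ^ cU * L := by
              refine hg.2.trans (hmY.trans ?_)
              exact mul_le_mul_of_nonneg_right s3 hLpos.le
            have hlev : ∀ q, ((D.filter (fun x => dep {S.o k} f x = q)).card : ℝ) ≤ n ^ cU := by
              intro q'
              have e1 : ((D.filter (fun x => dep {S.o k} f x = q')).card : ℝ) ≤
                ((J + 1 : ℕ) : ℝ) := by exact_mod_cast hwid q'
              push_cast at e1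
              linarith
            have hflat := hUk f hf D hCl hDc hlev (fun y' hy' => by
              have e1 := hdet y' hy'
              exact e1)
            have hrr1 : r ≤ r' + w ∧ r' ≤ r + w := by
              obtain ⟨e1, e2⟩ := abs_le.1 hrr
              constructor
              · have : (r : ℝ) ≤ ((r' + w : ℕ) : ℝ) := by push_cast; linarith
                exact_mod_cast this
              · have : (r' : ℝ) ≤ ((r + w : ℕ) : ℝ) := by push_cast; linarith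
                exact_mod_cast this
            obtain ⟨r'', hr1, hr2, hr3, hr4, hr5⟩ : ∃ r'' : ℕ, r ≤ r'' + wn ∧ r'' ≤ r + wn ∧
                r' ≤ r'' + wn ∧ r'' ≤ r' + wn ∧ (r'' ≤ r ∨ r'' ≤ r') := by
              refine ⟨(r + r') / 2, ?_, ?_, ?_, ?_, ?_⟩ <;> omega
            have hr'' : (r'' : ℝ) ≤ A * L := by
              rcases hr5 with h | h
              · exact le_trans (by exact_mod_cast h) hr
              · exact le_trans (by exact_mod_cast h) hr'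
            have hd1 : |(r : ℝ) - r''| ≤ wn := by
              rw [abs_le]
              have e1 : (r : ℝ) ≤ r'' + wn := by exact_mod_cast hr1
              have e2 : (r'' : ℝ) ≤ r + wn := by exact_mod_cast hr2
              constructor <;> linarith
            have hd2 : |(r'' : ℝ) - r'| ≤ wn := by
              rw [abs_le]
              have e1 : (r' : ℝ) ≤ r'' + wn := by exact_mod_cast hr3
              have e2 : (r'' : ℝ) ≤ r' + wn := by exact_mod_cast hr4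
              constructor <;> linarith
            have e1 := hflat r r'' hr hr'' hd1
            have e2 := hflat r'' r' hr'' hr' hd2
            have e3 := h1 r (hR1mem r hr)
            have e4 := h1 r' (hR1mem r' hr')
            rw [Nat.cast_one, one_mul] at e3 e4
            have e5 : κ * L ≤ ε / 3 * L := mul_le_mul_of_nonneg_right hκ1 hLpos.le
            rw [abs_le] at e1 e2 e3 e4
            have e6 : |bs (S.o k) f r 1 - bs (S.o k) f r' 1| ≤ ε * L := by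
              rw [abs_le]
              constructor <;> linarith [e1.1, e1.2, e2.1, e2.2, e3.1, e3.2, e4.1, e4.2]
            linarith
          rw [SU_ind_neg hnE]
          linarith
    · rw [SU_ind_pos hg]
      linarith
  -- union bound
  have hlist : ∀ l : List (S.V k), l.length = J →
      EF (S.G k) {S.o k} (fun f => ind (Ev f)) ≤
        EF (S.G k) {S.o k} (fun f => ind (¬ (Hit (K k) (sk {S.o k} f l) h ∧
          ((sk {S.o k} f l).card : ℝ) ≤ m))) + 2 * (A * L + 1) * Bd := by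
    intro l hl
    refine (SU_EF_mono _ _ _ _ (hpoint l hl)).trans ?_
    rw [SU_EF_add, SU_EF_add, SU_EF_sum, SU_EF_sum]
    have e1 : ∑ r ∈ R1, EF (S.G k) {S.o k} (fun f => ind (Hit (K k) (sk {S.o k} f l) h ∧
        ((sk {S.o k} f l).card : ℝ) ≤ m ∧ κ * ((1 : ℕ) * L) < |bs (S.o k) f r 1 -
          PhiD (S.G k) (S.o k) f (sk {S.o k} f l) r 1|)) ≤ (A * L + 1) * Bd := by
      calc _ ≤ ∑ r ∈ R1, Bd := by
            apply Finset.sum_le_sum
            intro r hr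
            rw [hR1, Finset.mem_filter] at hr
            apply hSLk l r 1 le_rfl
            push_cast
            linarith [hr.2]
        _ = R1.card * Bd := by rw [Finset.sum_const, nsmul_eq_mul]
        _ ≤ (A * L + 1) * Bd := mul_le_mul_of_nonneg_right hR1c hBd0
    have e2 : ∑ i ∈ R2, EF (S.G k) {S.o k} (fun f => ind (Hit (K k) (sk {S.o k} f l) h ∧
        ((sk {S.o k} f l).card : ℝ) ≤ m ∧ κ * (w * L) < |bs (S.o k) f (i * w) w -
          PhiD (S.G k) (S.o k) f (sk {S.o k} f l) (i * w) w|)) ≤ (A * L + 1) * Bd := by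
      calc _ ≤ ∑ i ∈ R2, Bd := by
            apply Finset.sum_le_sum
            intro i hi
            rw [hR2, Finset.mem_filter] at hi
            apply hSLk l (i * w) w hw1'
            push_cast
            linarith [hi.2]
        _ = R2.card * Bd := by rw [Finset.sum_const, nsmul_eq_mul]
        _ ≤ (A * L + 1) * Bd := mul_le_mul_of_nonneg_right hR2c hBd0
    linarith
  have hav := SU_avJ_le J (EF (S.G k) {S.o k} (fun f => ind (Ev f)))
    (fun l => EF (S.G k) {S.o k} (fun f => ind (¬ (Hit (K k) (sk {S.o k} f l) h ∧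
          ((sk {S.o k} f l).card : ℝ) ≤ m)))) (2 * (A * L + 1) * Bd) hlist
  have hBk' := hBk J hJ1 s1
  have hfin1 : C₂ * (J : ℝ) ^ (-c) ≤ C₂ / y := by
    rw [le_div_iff₀ hy0, mul_assoc]
    have e1 : (J : ℝ) ^ (-c) * y ≤ 1 := by
      refine le_trans ?_ hJc
      apply mul_le_mul_of_nonneg_left _ hJc0.le
      exact le_self_pow₀ hy1 (by norm_num)
    calc C₂ * ((J : ℝ) ^ (-c) * y) ≤ C₂ * 1 := mul_le_mul_of_nonneg_left e1 hC2.le
      _ = C₂ := mul_one _
  have hfin2 : 2 * (A * L + 1) * Bd ≤ 2 * (A + 1) * (2 * (y : ℝ)) ^ E * Bd := by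
    apply mul_le_mul_of_nonneg_right _ hBd0
    have e1 : L ≤ (2 * (y : ℝ)) ^ E := hLn.trans s6
    have e2 : 1 ≤ (2 * (y : ℝ)) ^ E := hL1.trans e1
    have e3 : A * L ≤ A * (2 * (y : ℝ)) ^ E := mul_le_mul_of_nonneg_left e1 (by linarith)
    linarith
  calc EF (S.G k) {S.o k} (fun f => ind (Ev f))
      ≤ avJ J (fun l => EF (S.G k) {S.o k} (fun f => ind (¬ (Hit (K k) (sk {S.o k} f l) h ∧
          ((sk {S.o k} f l).card : ℝ) ≤ m)))) + 2 * (A * L + 1) * Bd := hav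
    _ ≤ C₂ * (J : ℝ) ^ (-c) + 2 * (A * L + 1) * Bd := by linarith [hBk']
    _ ≤ C₂ / y + 2 * (A + 1) * (2 * (y : ℝ)) ^ E * Bd := by linarith
    _ ≤ η := hfink

end Pool.Agent.helper90.FN
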