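import Pool.Agent.helper90.FN.Goals2
import Pool.Agent.helper93.FN.SU

/-! Module fn:SU2 (unit scale lemma, final interface) -/

set_option autoImplicit false

open scoped BigOperators Topology
open Filter MeasureTheory

namespace Pool.Agent.helper90.FN

open Finset
open Pool.Agent.helper72.UT
open Pool.Agent.helper20.HP (ind HW W Par cc run lel lst lazyP tmix ustE height vol Setup CZ CP IsKer
  wd FinalGoal par_eventually tmix_small M2_reg M2_kernel)

/-! ### the deterministic part -/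

lemma SU2_det (hCAP : CAP_stmt) {V : Type} [Fintype V] [DecidableEq V] (G : SimpleGraph V) (d : ℕ)
    (K : HW V) (θ : ℝ) (h₀ h : ℕ) (hReg : Reg G d) (hKp : K.p = lz G d) (hPar : Par K θ h₀)
    (h2 : 2 * h₀ ≤ h) (h4 : 4 * h ≤ Nat.sqrt (Fintype.card V)) (o : V) (f : V → V) (D : Finset V)
    (hf : f ∈ fors G {o}) (hCl : Cl {o} D f) (hHit : Hit K D h) (N : ℕ)
    (hwid : ∀ q, (D.filter (fun x => dep {o} f x = q)).card ≤ N) (w : ℕ) (hw : 1 ≤ w)
    (AA Q L : ℝ) (hwN : 2 * (w : ℝ) * N ≤ L)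
    (hE1 : ∀ i : ℕ, (i : ℝ) * w ≤ AA → PhiD G o f D (i * w) w ≤ (Q + 1) * (w * L)) (y : ℕ)
    (hy : (y : ℝ) ≤ AA + 2 * w) : PhiD G o f D y 1 ≤ MC θ * (|Q| + 3) * L := by
  have hM0 : 0 ≤ MC θ := by
    have h1 := hPar.one_le
    unfold MC CZ
    positivity
  obtain ⟨hc1, hc2⟩ := hCAP V G d K θ h₀ h hReg hKp hPar h2 h4 o f D hf hCl hHit
  have hw0 : (0 : ℝ) < w := by exact_mod_cast hw
  have hN0 : (0 : ℝ) ≤ N := Nat.cast_nonneg _
  have hL0 : 0 ≤ L := le_trans (by positivity) hwN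
  have hQ : Q ≤ |Q| := le_abs_self Q
  have hQ0 : 0 ≤ |Q| := abs_nonneg Q
  obtain ⟨i, s, hs, hys⟩ : ∃ i s : ℕ, s < w ∧ y = i * w + s :=
    ⟨y / w, y % w, Nat.mod_lt _ hw, by rw [mul_comm]; exact (Nat.div_add_mod y w).symm⟩
  rcases Nat.lt_or_ge i 3 with hi | hi
  · have h5 := hc2 y
    have h6 : ((D.filter (fun x => dep {o} f x ≤ y)).card : ℝ) ≤ 3 * w * N := by
      have h7 : (D.filter (fun x => dep {o} f x ≤ y)).card ≤ (3 * w) * N := by
        refine le_trans (Finset.card_le_card ?_) (SU_levels o f D N hwid 0 (3 * w))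
        intro x hx
        rw [Finset.mem_filter] at hx ⊢
        have h9 : y < 3 * w := by
          have : i * w ≤ 2 * w := Nat.mul_le_mul_right w (by omega)
          omega
        exact ⟨hx.1, Nat.zero_le _, by omega⟩
      exact_mod_cast h7
    have h8 : 3 * (w : ℝ) * N ≤ 2 * L := by
      have : 0 ≤ (w : ℝ) * N := by positivity
      linarith
    calc PhiD G o f D y 1 ≤ MC θ * ((D.filter (fun x => dep {o} f x ≤ y)).card : ℝ) := h5
      _ ≤ MC θ * (2 * L) := mul_le_mul_of_nonneg_left (h6.trans h8) hM0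
      _ ≤ MC θ * (|Q| + 3) * L := by
        rw [mul_assoc]
        apply mul_le_mul_of_nonneg_left _ hM0
        nlinarith
  · obtain ⟨j, rfl⟩ : ∃ j, i = j + 3 := ⟨i - 3, by omega⟩
    have hjw : ((j : ℕ) : ℝ) * w ≤ AA := by
      have h3 : j * w + 3 * w ≤ y := by rw [hys, add_mul]; omega
      have h4 : (j : ℝ) * w + 3 * w ≤ y := by exact_mod_cast h3
      linarith
    have h5 := hE1 j hjw
    rw [SU_Phi_split] at h5
    have h6 : ∀ t ∈ range w, PhiD G o f D y 1 ≤
        MC θ * (PhiD G o f D (j * w + t) 1 + 4 * w * N) := by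
      intro t ht
      rw [Finset.mem_range] at ht
      have h7 := hc1 (j * w + t) y (by rw [hys, add_mul]; omega)
      refine h7.trans ?_
      apply mul_le_mul_of_nonneg_left _ hM0
      have h8 : (D.filter (fun x => j * w + t < dep {o} f x ∧ dep {o} f x ≤ y)).card ≤
          (4 * w) * N := by
        refine le_trans (Finset.card_le_card ?_) (SU_levels o f D N hwid (j * w) (4 * w))
        intro x hx
        rw [Finset.mem_filter] at hx ⊢
        refine ⟨hx.1, by omega, ?_⟩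
        have h9 : y < j * w + 4 * w := by rw [hys, add_mul]; omega
        omega
      have h10 : ((D.filter (fun x => j * w + t < dep {o} f x ∧ dep {o} f x ≤ y)).card : ℝ) ≤
          4 * w * N := by exact_mod_cast h8
      linarith
    have h11 : (w : ℝ) * PhiD G o f D y 1 ≤
        MC θ * ((Q + 1) * (w * L) + w * (4 * w * N)) := by
      have h12 := Finset.sum_le_sum h6
      rw [Finset.sum_const, Finset.card_range, nsmul_eq_mul, ← Finset.mul_sum,
        Finset.sum_add_distrib, Finset.sum_const, Finset.card_range, nsmul_eq_mul] at h12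
      refine h12.trans ?_
      apply mul_le_mul_of_nonneg_left _ hM0
      linarith
    have h13 : (Q + 1) * (w * L) + w * (4 * w * N) ≤ w * ((|Q| + 3) * L) := by
      have h14 : (w : ℝ) * (2 * w * N) ≤ w * L := mul_le_mul_of_nonneg_left hwN hw0.le
      have h15 : (Q + 1) * (w * L) ≤ (|Q| + 1) * (w * L) :=
        mul_le_mul_of_nonneg_right (by linarith) (by positivity)
      linarith
    have h16 := mul_le_mul_of_nonneg_left h13 hM0
    have h17 : (w : ℝ) * PhiD G o f D y 1 ≤ w * (MC θ * (|Q| + 3) * L) := by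
      have : MC θ * (w * ((|Q| + 3) * L)) = w * (MC θ * (|Q| + 3) * L) := by ring
      linarith
    exact le_of_mul_le_mul_left h17 hw0

/-! ### the theorem -/

theorem SU2 : SU2_stmt := by
  classical
  intro hSL hWD hB hCU hCAP S K hK hT A Q ε η hA hε hη
  obtain ⟨c, C₁, hc, hC1, hBev0⟩ := hB S K hK hT
  obtain ⟨C₂, hC2, hBev⟩ := hBev0 (η / 2) (by positivity)
  set θ : ℝ := max S.θ 1 with hθ
  have hθ1 : 1 ≤ θ := le_max_right _ _
  have hM0 : 0 ≤ MC θ := by unfold MC CZ; positivity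
  have hP0 : 0 ≤ CP θ := by unfold CP CZ; positivity
  obtain ⟨cU, hcU, hUev⟩ := hCU S K hK A (MC θ * (|Q| + 3)) (ε / 6) (by positivity)
  obtain ⟨q, p1, p2, E, yy, hq, hp1, hp2, hyy, hsc⟩ := SU_scale S c C₁ cU hc hcU
  set κ : ℝ := min (ε / 3) 1 with hκ
  have hκ0 : 0 < κ := lt_min (by positivity) one_pos
  have hκ1 : κ ≤ ε / 3 := min_le_left _ _
  have hκ2 : κ ≤ 1 := min_le_right _ _
  have hB0 : 0 < (A + 2) * (1 + 3 * CP θ) := by
    apply mul_pos (by linarith) (by linarith)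
  have hfin := hyy.eventually (SU_tend κ (MC θ) C₂ A ((A + 2) * (1 + 3 * CP θ)) (η / 2)
    (q * p1) (q * p2) E hκ0 hB0 (by positivity))
  filter_upwards [hBev, hUev, hsc, hfin, hyy.eventually_ge_atTop (max 2 (4 * (1 + MC θ))),
    par_eventually S K hK, S.card.eventually_ge_atTop 2] with k hBk hUk hsck hfink hyk hPar hcard2
    w hw1 hw2
  obtain ⟨s1, s2, s3, s4, s5, s6⟩ := hsck
  obtain ⟨T, hT1, hT2⟩ := hBk
  obtain ⟨d, hReg⟩ := M2_reg (S.G k) (S.conn k) (S.trans k) hcard2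
  have hKp := M2_kernel hReg (K k) (fun t x y => hK k t x y)
  have hne : Nonempty (S.V k) := ⟨S.o k⟩
  set y : ℕ := yy k with hydef
  set J : ℕ := y ^ q with hJ
  set L : ℝ := (Nat.sqrt (Fintype.card (S.V k)) : ℝ) with hL
  set n : ℝ := (Fintype.card (S.V k) : ℝ) with hn
  set wn : ℕ := wd (Fintype.card (S.V k)) S.a with hwn
  have hy2 : (2 : ℝ) ≤ y := (le_max_left _ _).trans hyk
  have hyM : 4 * (1 + MC θ) ≤ y := (le_max_right _ _).trans hyk
  have hy0 : (0 : ℝ) < y := by linarith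
  have hy1 : (1 : ℝ) ≤ y := by linarith
  have hn1 : (1 : ℝ) ≤ n := by
    have : 1 ≤ Fintype.card (S.V k) := by omega
    rw [hn]; exact_mod_cast this
  have hn0 : (0 : ℝ) < n := by linarith
  have hJ1 : 1 ≤ J := by
    rw [hJ]; apply Nat.one_le_pow
    have : (0 : ℝ) < (y : ℕ) := hy0
    exact_mod_cast this
  have hJ1' : (1 : ℝ) ≤ J := by exact_mod_cast hJ1
  have hJ0 : (0 : ℝ) < J := by linarith
  have hJy : (J : ℝ) = (y : ℝ) ^ q := by rw [hJ]; push_cast; rfl
  have hwn1 : 1 ≤ wn := by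
    rw [hwn]; unfold wd
    apply Nat.le_floor
    rw [Nat.cast_one]
    apply Real.one_le_rpow
    · exact hn1
    · have ha1 : S.a ≤ 1 / 4 := min_le_right _ _
      linarith
  have hw1' : 1 ≤ w := hwn1.trans hw1
  have hwR : (1 : ℝ) ≤ w := by exact_mod_cast hw1'
  have hwn0 : (0 : ℝ) ≤ wn := Nat.cast_nonneg _
  have hw2' : (w : ℝ) ≤ 2 * wn := by exact_mod_cast hw2
  -- `L`
  have hL8 : 8 * (wn : ℝ) ≤ L := by
    have : 4 * (wn : ℝ) * 2 ≤ 4 * (wn : ℝ) * ((J : ℝ) + 1) := by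
      apply mul_le_mul_of_nonneg_left _ (by positivity)
      linarith
    linarith
  have hLpos : 0 < L := by
    have : (1 : ℝ) ≤ wn := by exact_mod_cast hwn1
    linarith
  have hwL : (w : ℝ) ≤ L := by linarith
  have hL1 : 1 ≤ L := hwR.trans hwL
  have hLn : L ≤ n := by
    rw [hL, hn]
    exact_mod_cast Nat.sqrt_le_self _
  -- powers
  have hJc0 : 0 < (J : ℝ) ^ (-c) := Real.rpow_pos_of_pos hJ0 _
  have hJc : (J : ℝ) ^ (-c) * (y : ℝ) ^ 8 ≤ 1 := by
    rw [Real.rpow_neg hJ0.le, inv_mul_eq_div, div_le_one (Real.rpow_pos_of_pos hJ0 _), hJy,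
      ← Real.rpow_natCast (y : ℝ) q, ← Real.rpow_mul hy0.le, ← Real.rpow_natCast (y : ℝ) 8]
    apply Real.rpow_le_rpow_of_exponent_le hy1
    push_cast
    linarith
  have hJp2 : 1 ≤ (J : ℝ) ^ (-c) * (y : ℝ) ^ (q * p2) := by
    rw [Real.rpow_neg hJ0.le, inv_mul_eq_div, one_le_div (Real.rpow_pos_of_pos hJ0 _), pow_mul,
      ← hJy, ← Real.rpow_natCast (J : ℝ) p2]
    exact Real.rpow_le_rpow_of_exponent_le hJ1' hp2
  have hJp1 : (J : ℝ) ^ C₁ ≤ (y : ℝ) ^ (q * p1) := by
    rw [pow_mul, ← hJy, ← Real.rpow_natCast (J : ℝ) p1]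
    exact Real.rpow_le_rpow_of_exponent_le hJ1' hp1
  set h : ℕ := ⌊L * (J : ℝ) ^ (-c)⌋₊ with hh
  have hhle : (h : ℝ) ≤ L * (J : ℝ) ^ (-c) := by
    rw [hh]; exact Nat.floor_le (by positivity)
  have hh8 : (h : ℝ) * (y : ℝ) ^ 8 ≤ L := by
    calc (h : ℝ) * (y : ℝ) ^ 8 ≤ L * (J : ℝ) ^ (-c) * (y : ℝ) ^ 8 :=
          mul_le_mul_of_nonneg_right hhle (by positivity)
      _ = L * ((J : ℝ) ^ (-c) * (y : ℝ) ^ 8) := by ring
      _ ≤ L * 1 := mul_le_mul_of_nonneg_left hJc hLpos.le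
      _ = L := mul_one L
  have hY2 : (0 : ℝ) < (y : ℝ) ^ (q * p2) := by positivity
  have hLJ : 4 * ((tmix (S.G k) + 1 : ℕ) : ℝ) ≤ L * (J : ℝ) ^ (-c) := by
    have e1 : 4 * ((tmix (S.G k) + 1 : ℕ) : ℝ) * (y : ℝ) ^ (q * p2) ≤
        L * (J : ℝ) ^ (-c) * (y : ℝ) ^ (q * p2) := by
      calc 4 * ((tmix (S.G k) + 1 : ℕ) : ℝ) * (y : ℝ) ^ (q * p2) ≤ L := s4
        _ = L * 1 := (mul_one L).symm
        _ ≤ L * ((J : ℝ) ^ (-c) * (y : ℝ) ^ (q * p2)) := mul_le_mul_of_nonneg_left hJp2 hLpos.le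
        _ = L * (J : ℝ) ^ (-c) * (y : ℝ) ^ (q * p2) := by ring
    exact le_of_mul_le_mul_right e1 hY2
  have ht1 : (1 : ℝ) ≤ ((tmix (S.G k) + 1 : ℕ) : ℝ) := by
    push_cast
    have : (0 : ℝ) ≤ (tmix (S.G k) : ℝ) := Nat.cast_nonneg _
    linarith
  have hhalf : L * (J : ℝ) ^ (-c) ≤ 2 * h := by
    have e1 := Nat.lt_floor_add_one (L * (J : ℝ) ^ (-c))
    rw [← hh] at e1
    linarith
  have hh0R : (0 : ℝ) < h := by linarith
  have h2h : 2 * (tmix (S.G k) + 1) ≤ h := by
    have : 2 * ((tmix (S.G k) + 1 : ℕ) : ℝ) ≤ h := by linarith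
    exact_mod_cast this
  have h4h : 4 * h ≤ Nat.sqrt (Fintype.card (S.V k)) := by
    have e1 : (4 : ℝ) ≤ (y : ℝ) ^ 8 := by
      have : (2 : ℝ) ^ 8 ≤ (y : ℝ) ^ 8 := pow_le_pow_left₀ (by norm_num) hy2 8
      linarith
    have e2 : 4 * (h : ℝ) ≤ (h : ℝ) * (y : ℝ) ^ 8 := by nlinarith
    have e3 : 4 * (h : ℝ) ≤ (Nat.sqrt (Fintype.card (S.V k)) : ℝ) := e2.trans hh8
    exact_mod_cast e3
  have hL2 : L ≤ 2 * h * (y : ℝ) ^ (q * p2) := by
    calc L = L * 1 := (mul_one L).symm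
      _ ≤ L * ((J : ℝ) ^ (-c) * (y : ℝ) ^ (q * p2)) := mul_le_mul_of_nonneg_left hJp2 hLpos.le
      _ = L * (J : ℝ) ^ (-c) * (y : ℝ) ^ (q * p2) := by ring
      _ ≤ 2 * h * (y : ℝ) ^ (q * p2) := mul_le_mul_of_nonneg_right hhalf hY2.le
  set m : ℝ := (J : ℝ) ^ C₁ * L with hm
  have hm0 : 0 ≤ m := by positivity
  have hmY : m ≤ (y : ℝ) ^ (q * p1) * L := mul_le_mul_of_nonneg_right hJp1 hLpos.le
  -- the bound from SL1
  set Bd : ℝ := 2 * Real.exp (-(κ * y) + 4 * (1 + MC θ)) + (MC θ * y * (y : ℝ) ^ (q * p1) +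
    (y : ℝ) ^ (q * p1) * (y : ℝ) ^ (q * p2)) * Real.exp (-(y : ℝ)) +
    Real.exp (3 - y / ((A + 2) * (1 + 3 * CP θ))) with hBd
  have hBd0 : 0 ≤ Bd := by rw [hBd]; positivity
  have hSLk : ∀ (l : List (S.V k)) (r w' : ℕ), 1 ≤ w' → (r : ℝ) + w' ≤ (A + 2) * L →
      EF (S.G k) {S.o k} (fun f => ind (Hit (K k) (sk {S.o k} f l) h ∧
        ((sk {S.o k} f l).card : ℝ) ≤ m ∧
        κ * (w' * L) < |bs (S.o k) f r w' - PhiD (S.G k) (S.o k) f (sk {S.o k} f l) r w'|)) ≤
        Bd := by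
    intro l r w' hw' hr
    have hw'R : (1 : ℝ) ≤ w' := by exact_mod_cast hw'
    have hw'L : 0 < (w' : ℝ) * L := by positivity
    have e1 := hSL (S.V k) (S.G k) d (K k) θ (tmix (S.G k) + 1) h hReg hKp hPar h2h h4h (S.o k) l r
      w' (A + 2) ((y : ℝ) / (w' * L)) (κ * (w' * L)) ((y : ℝ) ^ 4) y m (by linarith) hw' hr
      (by positivity) (by positivity) (by positivity) hy0.le hm0
      (SU_cond (MC θ) y L w' h hy2 hyM hLpos hw'R hh0R hM0 hh8)
    exact e1.trans (SU_bound κ (MC θ) y L w' h m ((y : ℝ) ^ (q * p1)) ((y : ℝ) ^ (q * p2)) (A + 2)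
      (CP θ) hy2 hLpos hw'R hh0R hM0 hh8 hL2 hm0 hmY (by positivity))
  -- index sets
  set R : Finset ℕ := range (⌊A * L⌋₊ + 1) with hR
  have hAL0 : 0 ≤ A * L := by positivity
  have hRcard : (R.card : ℝ) ≤ A * L + 1 := by
    rw [hR, Finset.card_range]
    push_cast
    have := Nat.floor_le hAL0
    linarith
  have hRmem : ∀ r : ℕ, (r : ℝ) ≤ A * L → r ∈ R := by
    intro r hr
    rw [hR, Finset.mem_range]
    have := Nat.le_floor hr
    omega
  set R1 : Finset ℕ := R.filter (fun r : ℕ => (r : ℝ) ≤ A * L) with hR1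
  set R2 : Finset ℕ := R.filter (fun i : ℕ => (i : ℝ) * w ≤ A * L) with hR2
  have hR1c : (R1.card : ℝ) ≤ A * L + 1 := by
    have : (R1.card : ℝ) ≤ R.card := by exact_mod_cast Finset.card_filter_le _ _
    linarith
  have hR2c : (R2.card : ℝ) ≤ A * L + 1 := by
    have : (R2.card : ℝ) ≤ R.card := by exact_mod_cast Finset.card_filter_le _ _
    linarith
  have hR2mem : ∀ i : ℕ, (i : ℝ) * w ≤ A * L → i ∈ R2 := by
    intro i hi
    rw [hR2, Finset.mem_filter]
    refine ⟨hRmem i ?_, hi⟩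
    have : (i : ℝ) * 1 ≤ (i : ℝ) * w := mul_le_mul_of_nonneg_left hwR (Nat.cast_nonneg _)
    linarith
  have hR1mem : ∀ r : ℕ, (r : ℝ) ≤ A * L → r ∈ R1 := by
    intro r hr
    rw [hR1, Finset.mem_filter]
    exact ⟨hRmem r hr, hr⟩
  -- the event
  set Ev : (S.V k → S.V k) → Prop := fun f =>
    (∀ i : ℕ, (i : ℝ) * w ≤ A * L → bs (S.o k) f (i * w) w ≤ Q * (w * L)) ∧
      (∃ r r' : ℕ, (r : ℝ) ≤ A * L ∧ (r' : ℝ) ≤ A * L ∧ |(r : ℝ) - r'| ≤ w ∧
        ε * L < |bs (S.o k) f r 1 - bs (S.o k) f r' 1|) with hEv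
  have hpoint : ∀ l : List (S.V k), l.length ≤ J → ∀ f ∈ fors (S.G k) {S.o k},
      ind (Ev f) ≤ ind (¬ (Hit (K k) (sk {S.o k} f l) h ∧ ((sk {S.o k} f l).card : ℝ) ≤ m)) +
        (∑ r ∈ R1, ind (Hit (K k) (sk {S.o k} f l) h ∧ ((sk {S.o k} f l).card : ℝ) ≤ m ∧
          κ * ((1 : ℕ) * L) < |bs (S.o k) f r 1 -
            PhiD (S.G k) (S.o k) f (sk {S.o k} f l) r 1|) +
        ∑ i ∈ R2, ind (Hit (K k) (sk {S.o k} f l) h ∧ ((sk {S.o k} f l).card : ℝ) ≤ m ∧
          κ * (w * L) < |bs (S.o k) f (i * w) w -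
            PhiD (S.G k) (S.o k) f (sk {S.o k} f l) (i * w) w|)) := by
    intro l hl f hf
    set D : Finset (S.V k) := sk {S.o k} f l with hD
    have hs1 : 0 ≤ ∑ r ∈ R1, ind (Hit (K k) D h ∧ (D.card : ℝ) ≤ m ∧
          κ * ((1 : ℕ) * L) < |bs (S.o k) f r 1 - PhiD (S.G k) (S.o k) f D r 1|) :=
      Finset.sum_nonneg fun r _ => SU_ind_nonneg _
    have hs2 : 0 ≤ ∑ i ∈ R2, ind (Hit (K k) D h ∧ (D.card : ℝ) ≤ m ∧
          κ * (w * L) < |bs (S.o k) f (i * w) w - PhiD (S.G k) (S.o k) f D (i * w) w|) :=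
      Finset.sum_nonneg fun r _ => SU_ind_nonneg _
    have hs0 := SU_ind_nonneg (¬ (Hit (K k) D h ∧ (D.card : ℝ) ≤ m))
    have hle1 := SU_ind_le_one (Ev f)
    by_cases hg : Hit (K k) D h ∧ (D.card : ℝ) ≤ m
    · by_cases h1 : ∃ r ∈ R1, κ * ((1 : ℕ) * L) <
          |bs (S.o k) f r 1 - PhiD (S.G k) (S.o k) f D r 1|
      · obtain ⟨r, hr, h1⟩ := h1
        have e1 := Finset.single_le_sum (f := fun r => ind (Hit (K k) D h ∧ (D.card : ℝ) ≤ m ∧
          κ * ((1 : ℕ) * L) < |bs (S.o k) f r 1 - PhiD (S.G k) (S.o k) f D r 1|))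
          (fun r _ => SU_ind_nonneg _) hr
        rw [SU_ind_pos ⟨hg.1, hg.2, h1⟩] at e1
        linarith
      · by_cases h2 : ∃ i ∈ R2, κ * (w * L) <
            |bs (S.o k) f (i * w) w - PhiD (S.G k) (S.o k) f D (i * w) w|
        · obtain ⟨i, hi, h2⟩ := h2
          have e1 := Finset.single_le_sum (f := fun i => ind (Hit (K k) D h ∧ (D.card : ℝ) ≤ m ∧
            κ * (w * L) < |bs (S.o k) f (i * w) w - PhiD (S.G k) (S.o k) f D (i * w) w|))
            (fun r _ => SU_ind_nonneg _) hi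
          rw [SU_ind_pos ⟨hg.1, hg.2, h2⟩] at e1
          linarith
        · push Not at h1 h2
          have hnE : ¬ Ev f := by
            rintro ⟨hE1, r, r', hr, hr', hrr, hE2⟩
            have hCl : Cl {S.o k} D f := SU_sk_cl hf l
            obtain ⟨hwid, _, _⟩ := hWD (S.V k) (S.G k) (S.o k) f l hf
            have hwid' : ∀ q, (D.filter (fun x => dep {S.o k} f x = q)).card ≤ J + 1 :=
              fun q => (hwid q).trans (by omega)
            have hdet := SU2_det hCAP (S.G k) d (K k) θ (tmix (S.G k) + 1) h hReg hKp hPar h2h h4h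
              (S.o k) f D hf hCl hg.1 (J + 1) hwid' w hw1' (A * L) Q L (by
                push_cast
                have e1 : 2 * (w : ℝ) * ((J : ℝ) + 1) ≤ 2 * (2 * wn) * ((J : ℝ) + 1) := by
                  apply mul_le_mul_of_nonneg_right _ (by linarith)
                  linarith
                have e2 : 2 * (2 * (wn : ℝ)) * ((J : ℝ) + 1) = 4 * wn * ((J : ℝ) + 1) := by ring
                linarith) (by
                intro i hi
                have e1 := hE1 i hi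
                have e2 := h2 i (hR2mem i hi)
                have e3 := (abs_le.1 e2).1
                have e4 : κ * (w * L) ≤ 1 * (w * L) :=
                  mul_le_mul_of_nonneg_right hκ2 (by positivity)
                linarith)
            have hDc : (D.card : ℝ) ≤ n ^ cU * L := by
              refine hg.2.trans (hmY.trans ?_)
              exact mul_le_mul_of_nonneg_right s3 hLpos.le
            have hlev : ∀ q, ((D.filter (fun x => dep {S.o k} f x = q)).card : ℝ) ≤ n ^ cU := by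
              intro q'
              have e1 : ((D.filter (fun x => dep {S.o k} f x = q')).card : ℝ) ≤
                ((J + 1 : ℕ) : ℝ) := by exact_mod_cast hwid' q'
              push_cast at e1
              linarith
            have hflat := hUk f hf D hCl hDc hlev (fun y' hy' => by
              have e0 : (wn : ℝ) ≤ w := by exact_mod_cast hw1
              have e1 := hdet y' (by linarith)
              exact e1)
            have hrr1 : r ≤ r' + w ∧ r' ≤ r + w := by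
              obtain ⟨e1, e2⟩ := abs_le.1 hrr
              constructor
              · have : (r : ℝ) ≤ ((r' + w : ℕ) : ℝ) := by push_cast; linarith
                exact_mod_cast this
              · have : (r' : ℝ) ≤ ((r + w : ℕ) : ℝ) := by push_cast; linarith
                exact_mod_cast this
            obtain ⟨r'', hr1, hr2, hr3, hr4, hr5⟩ : ∃ r'' : ℕ, r ≤ r'' + wn ∧ r'' ≤ r + wn ∧
                r' ≤ r'' + wn ∧ r'' ≤ r' + wn ∧ (r'' ≤ r ∨ r'' ≤ r') := by
              refine ⟨(r + r') / 2, ?_, ?_, ?_, ?_, ?_⟩ <;> omega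
            have hr'' : (r'' : ℝ) ≤ A * L := by
              rcases hr5 with h | h
              · exact le_trans (by exact_mod_cast h) hr
              · exact le_trans (by exact_mod_cast h) hr'
            have hd1 : |(r : ℝ) - r''| ≤ wn := by
              rw [abs_le]
              have e1 : (r : ℝ) ≤ r'' + wn := by exact_mod_cast hr1
              have e2 : (r'' : ℝ) ≤ r + wn := by exact_mod_cast hr2
              constructor <;> linarith
            have hd2 : |(r'' : ℝ) - r'| ≤ wn := by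
              rw [abs_le]
              have e1 : (r' : ℝ) ≤ r'' + wn := by exact_mod_cast hr3
              have e2 : (r'' : ℝ) ≤ r' + wn := by exact_mod_cast hr4
              constructor <;> linarith
            have e1 := hflat r r'' hr hr'' hd1
            have e2 := hflat r'' r' hr'' hr' hd2
            have e3 := h1 r (hR1mem r hr)
            have e4 := h1 r' (hR1mem r' hr')
            rw [Nat.cast_one, one_mul] at e3 e4
            have e5 : κ * L ≤ ε / 3 * L := mul_le_mul_of_nonneg_right hκ1 hLpos.le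
            rw [abs_le] at e1 e2 e3 e4
            have e6 : |bs (S.o k) f r 1 - bs (S.o k) f r' 1| ≤ ε * L := by
              rw [abs_le]
              constructor <;> linarith [e1.1, e1.2, e2.1, e2.2, e3.1, e3.2, e4.1, e4.2]
            linarith
          rw [SU_ind_neg hnE]
          linarith
    · rw [SU_ind_pos hg]
      linarith
  -- union bound
  have hlist : ∀ l : List (S.V k), l.length ≤ J →
      EF (S.G k) {S.o k} (fun f => ind (Ev f)) ≤
        EF (S.G k) {S.o k} (fun f => ind (¬ (Hit (K k) (sk {S.o k} f l) h ∧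
          ((sk {S.o k} f l).card : ℝ) ≤ m))) + 2 * (A * L + 1) * Bd := by
    intro l hl
    refine (SU_EF_mono _ _ _ _ (hpoint l hl)).trans ?_
    rw [SU_EF_add, SU_EF_add, SU_EF_sum, SU_EF_sum]
    have e1 : ∑ r ∈ R1, EF (S.G k) {S.o k} (fun f => ind (Hit (K k) (sk {S.o k} f l) h ∧
        ((sk {S.o k} f l).card : ℝ) ≤ m ∧ κ * ((1 : ℕ) * L) < |bs (S.o k) f r 1 -
          PhiD (S.G k) (S.o k) f (sk {S.o k} f l) r 1|)) ≤ (A * L + 1) * Bd := by
      calc _ ≤ ∑ r ∈ R1, Bd := by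
            apply Finset.sum_le_sum
            intro r hr
            rw [hR1, Finset.mem_filter] at hr
            apply hSLk l r 1 le_rfl
            push_cast
            linarith [hr.2]
        _ = R1.card * Bd := by rw [Finset.sum_const, nsmul_eq_mul]
        _ ≤ (A * L + 1) * Bd := mul_le_mul_of_nonneg_right hR1c hBd0
    have e2 : ∑ i ∈ R2, EF (S.G k) {S.o k} (fun f => ind (Hit (K k) (sk {S.o k} f l) h ∧
        ((sk {S.o k} f l).card : ℝ) ≤ m ∧ κ * (w * L) < |bs (S.o k) f (i * w) w -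
          PhiD (S.G k) (S.o k) f (sk {S.o k} f l) (i * w) w|)) ≤ (A * L + 1) * Bd := by
      calc _ ≤ ∑ i ∈ R2, Bd := by
            apply Finset.sum_le_sum
            intro i hi
            rw [hR2, Finset.mem_filter] at hi
            apply hSLk l (i * w) w hw1'
            push_cast
            linarith [hi.2]
        _ = R2.card * Bd := by rw [Finset.sum_const, nsmul_eq_mul]
        _ ≤ (A * L + 1) * Bd := mul_le_mul_of_nonneg_right hR2c hBd0
    linarith
  obtain ⟨l, hl, hBl⟩ := hT2 J hJ1 s1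
  have hmain := hlist l hl
  have hsplit : EF (S.G k) {S.o k} (fun f => ind (¬ (Hit (K k) (sk {S.o k} f l) h ∧
      ((sk {S.o k} f l).card : ℝ) ≤ m))) ≤ η / 2 + C₂ * (J : ℝ) ^ (-c) := by
    have e1 : EF (S.G k) {S.o k} (fun f => ind (¬ (Hit (K k) (sk {S.o k} f l) h ∧
        ((sk {S.o k} f l).card : ℝ) ≤ m))) ≤ EF (S.G k) {S.o k} (fun f => ind (¬ T f) +
          ind (T f ∧ ¬ Good (K k) (sk {S.o k} f l) J c C₁)) := by
      apply SU_EF_mono
      intro f hf
      by_cases hTf : T f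
      · by_cases hg : Hit (K k) (sk {S.o k} f l) h ∧ ((sk {S.o k} f l).card : ℝ) ≤ m
        · rw [SU_ind_neg (not_not.2 hg)]
          exact add_nonneg (SU_ind_nonneg _) (SU_ind_nonneg _)
        · have hg' : T f ∧ ¬ Good (K k) (sk {S.o k} f l) J c C₁ := ⟨hTf, fun hG => hg hG⟩
          have e2 := SU_ind_nonneg (¬ T f)
          rw [SU_ind_pos hg, SU_ind_pos hg']
          linarith
      · have e2 := SU_ind_le_one (¬ (Hit (K k) (sk {S.o k} f l) h ∧
          ((sk {S.o k} f l).card : ℝ) ≤ m))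
        have e3 := SU_ind_nonneg (T f ∧ ¬ Good (K k) (sk {S.o k} f l) J c C₁)
        rw [SU_ind_pos hTf]
        linarith
    rw [SU_EF_add] at e1
    linarith
  have hfin1 : C₂ * (J : ℝ) ^ (-c) ≤ C₂ / y := by
    rw [le_div_iff₀ hy0, mul_assoc]
    have e1 : (J : ℝ) ^ (-c) * y ≤ 1 := by
      refine le_trans ?_ hJc
      apply mul_le_mul_of_nonneg_left _ hJc0.le
      exact le_self_pow₀ hy1 (by norm_num)
    calc C₂ * ((J : ℝ) ^ (-c) * y) ≤ C₂ * 1 := mul_le_mul_of_nonneg_left e1 hC2.le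
      _ = C₂ := mul_one _
  have hfin2 : 2 * (A * L + 1) * Bd ≤ 2 * (A + 1) * (2 * (y : ℝ)) ^ E * Bd := by
    apply mul_le_mul_of_nonneg_right _ hBd0
    have e1 : L ≤ (2 * (y : ℝ)) ^ E := hLn.trans s6
    have e2 : 1 ≤ (2 * (y : ℝ)) ^ E := hL1.trans e1
    have e3 : A * L ≤ A * (2 * (y : ℝ)) ^ E := mul_le_mul_of_nonneg_left e1 (by linarith)
    linarith
  calc EF (S.G k) {S.o k} (fun f => ind (Ev f))
      ≤ EF (S.G k) {S.o k} (fun f => ind (¬ (Hit (K k) (sk {S.o k} f l) h ∧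
          ((sk {S.o k} f l).card : ℝ) ≤ m))) + 2 * (A * L + 1) * Bd := hmain
    _ ≤ η / 2 + (C₂ * (J : ℝ) ^ (-c) + 2 * (A * L + 1) * Bd) := by linarith
    _ ≤ η / 2 + (C₂ / y + 2 * (A + 1) * (2 * (y : ℝ)) ^ E * Bd) := by linarith
    _ ≤ η / 2 + η / 2 := by linarith [hfink]
    _ = η := by ring

end Pool.Agent.helper90.FN
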